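import Pool.Agent.Helper66K9.LSH.Yg
set_option autoImplicit false

/-! # Kernels of compactly supported smooth families of multipliers -/

namespace Pool.Agent.Helper66K9.LSH

open MeasureTheory Set Filter
open scoped ENNReal FourierTransform RealInnerProductSpace Topology ContDiff SchwartzMap
open Pool.Agent.TH280.LS (e norm_e e_add measurable_e continuous_e plancherel e_conj)
open Pool.Agent.Helper66K9.LS (F_eq)

variable {W : Type*} [NormedAddCommGroup W] [InnerProductSpace ℝ W] [FiniteDimensional ℝ W]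
  [MeasurableSpace W] [BorelSpace W]

theorem iterated_le {G : ℝ × W → ℂ} (hG : ContDiff ℝ ∞ G) (μ : ℝ) (i : ℕ) (ζ : W) :
    ‖iteratedFDeriv ℝ i (fun ζ => G (μ, ζ)) ζ‖ ≤ ‖iteratedFDeriv ℝ i G (μ, ζ)‖ := by
  have h1 : (fun ζ => G (μ, ζ)) = (fun p => G ((μ, 0) + p)) ∘ (ContinuousLinearMap.inr ℝ ℝ W) := by
    funext ζ
    simp
  rw [h1]
  have h2 : ContDiff ℝ ∞ (fun p => G ((μ, 0) + p)) := hG.comp (contDiff_const.add contDiff_id)
  rw [ContinuousLinearMap.iteratedFDeriv_comp_right _ h2 _ (by exact_mod_cast le_top)]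
  refine (ContinuousMultilinearMap.norm_compContinuousLinearMap_le _ _).trans ?_
  rw [iteratedFDeriv_comp_add_left]
  have h3 : ‖ContinuousLinearMap.inr ℝ ℝ W‖ ≤ 1 := ContinuousLinearMap.norm_inr_le_one ..
  have h4 : ∏ _j : Fin i, ‖ContinuousLinearMap.inr ℝ ℝ W‖ ≤ 1 :=
    Finset.prod_le_one (fun _ _ => ContinuousLinearMap.opNorm_nonneg _) fun _ _ => h3
  have h5 : (μ, (0 : W)) + (ContinuousLinearMap.inr ℝ ℝ W) ζ = (μ, ζ) := by simp
  rw [h5]
  exact mul_le_of_le_one_right (norm_nonneg _) h4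

theorem CS (G : ℝ × W → ℂ) (hG : ContDiff ℝ ∞ G) (R : ℝ)
    (hsupp : ∀ μ ζ, R < ‖ζ‖ → G (μ, ζ) = 0) (m : ℝ) :
    ∃ C : ℝ, 0 < C ∧ ∀ μ ∈ Icc (-m) m, ∃ κ : W → ℂ, Continuous κ ∧ Integrable κ ∧
      ∫⁻ v, ‖κ v‖ₑ ≤ ENNReal.ofReal C ∧ (∀ ζ, G (μ, ζ) = ∫ v : W, e (-(⟪v, ζ⟫ : ℝ)) * κ v) ∧
      ∀ v, κ v = ∫ ζ : W, e (⟪v, ζ⟫ : ℝ) * G (μ, ζ) := by
  set q : ℕ := Module.finrank ℝ W + 1 with hq
  -- bounds of the derivatives
  have hbd : ∀ i : ℕ, ∃ B : ℝ, 0 ≤ B ∧ ∀ μ ∈ Icc (-m) m, ∀ ζ,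
      ‖iteratedFDeriv ℝ i (fun ζ => G (μ, ζ)) ζ‖ ≤ B := by
    intro i
    have hc : Continuous (iteratedFDeriv ℝ i G) :=
      hG.continuous_iteratedFDeriv (by exact_mod_cast le_top)
    obtain ⟨B, hB⟩ := ((isCompact_Icc (a := -m) (b := m)).prod
      (isCompact_closedBall (0 : W) R)).exists_bound_of_continuousOn hc.continuousOn
    refine ⟨max B 0, le_max_right _ _, fun μ hμ ζ => ?_⟩
    by_cases hζ : ‖ζ‖ ≤ R
    · refine (iterated_le hG μ i ζ).trans ((hB (μ, ζ) ⟨hμ, ?_⟩).trans (le_max_left _ _))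
      simpa using hζ
    · have h1 : ζ ∉ tsupport (fun ζ => G (μ, ζ)) := by
        intro hc
        apply hζ
        have h2 : tsupport (fun ζ => G (μ, ζ)) ⊆ Metric.closedBall (0 : W) R := by
          refine closure_minimal ?_ Metric.isClosed_closedBall
          intro w hw
          by_contra hcon
          exact hw (hsupp μ w (by simpa using hcon))
        simpa using h2 hc
      have h2 : iteratedFDeriv ℝ i (fun ζ => G (μ, ζ)) ζ = 0 := by
        by_contra hcon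
        exact h1 (support_iteratedFDeriv_subset i hcon)
      rw [h2, norm_zero]
      exact le_max_right _ _
  choose B hB0 hB using hbd
  set V : ℝ := (volume (Metric.closedBall (0 : W) R)).toReal with hV
  have hV0 : 0 ≤ V := ENNReal.toReal_nonneg
  have hsm : ∀ μ, ContDiff ℝ ∞ (fun ζ => G (μ, ζ)) := fun μ =>
    hG.comp (contDiff_const.prodMk contDiff_id)
  have hcs : ∀ μ, HasCompactSupport (fun ζ => G (μ, ζ)) := fun μ =>
    HasCompactSupport.intro (isCompact_closedBall (0 : W) R) fun ζ hζ => hsupp μ ζ (by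
      simpa using hζ)
  have hint : ∀ i : ℕ, ∀ μ ∈ Icc (-m) m,
      ∫ ζ, ‖iteratedFDeriv ℝ i (fun ζ => G (μ, ζ)) ζ‖ ≤ B i * V := by
    intro i μ hμ
    have hz : ∀ ζ, ζ ∉ Metric.closedBall (0 : W) R →
        ‖iteratedFDeriv ℝ i (fun ζ => G (μ, ζ)) ζ‖ = 0 := by
      intro ζ hζ
      rw [norm_eq_zero]
      by_contra hcon
      have h3 := support_iteratedFDeriv_subset i hcon
      have h2 : tsupport (fun ζ => G (μ, ζ)) ⊆ Metric.closedBall (0 : W) R := by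
        refine closure_minimal ?_ Metric.isClosed_closedBall
        intro w hw
        by_contra hcon
        exact hw (hsupp μ w (by simpa using hcon))
      exact hζ (h2 h3)
    rw [← setIntegral_eq_integral_of_forall_compl_eq_zero hz]
    have h4 := norm_setIntegral_le_of_norm_le_const (μ := (volume : Measure W))
      (s := Metric.closedBall (0 : W) R)
      (f := fun ζ => ‖iteratedFDeriv ℝ i (fun ζ => G (μ, ζ)) ζ‖) (C := B i)
      measure_closedBall_lt_top (fun ζ _ => by rw [norm_norm]; exact hB i μ hμ ζ)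
    exact (le_abs_self _).trans h4
  set J : ℝ := ∫ v : W, (1 + ‖v‖) ^ (-(q : ℝ)) with hJ
  have hJi : Integrable (fun v : W => (1 + ‖v‖) ^ (-(q : ℝ))) :=
    integrable_one_add_norm (by rw [hq]; push_cast; linarith)
  have hJ0 : 0 ≤ J := integral_nonneg fun v => by positivity
  set D : ℝ := 2 ^ (q - 1) * (B 0 * V + 2 ^ q * ∑ j ∈ Finset.range (q + 1), B j * V) with hD
  have hD0 : 0 ≤ D := by
    have : 0 ≤ ∑ j ∈ Finset.range (q + 1), B j * V :=
      Finset.sum_nonneg fun j _ => mul_nonneg (hB0 j) hV0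
    have h5 := hB0 0
    positivity
  refine ⟨D * J + 1, by positivity, fun μ hμ => ?_⟩
  set gS : 𝓢(W, ℂ) := (hcs μ).toSchwartzMap (hsm μ) with hgS
  have hgSa : ∀ ζ, gS ζ = G (μ, ζ) := fun ζ => rfl
  set κ : 𝓢(W, ℂ) := 𝓕⁻ gS with hκ
  have hinv : (𝓕 κ : 𝓢(W, ℂ)) = gS := FourierTransform.fourier_fourierInv_eq gS
  have hκ1 : ∀ v, κ v = 𝓕 (fun ζ => G (μ, ζ)) (-v) := by
    intro v
    have h1 : κ v = 𝓕⁻ (gS : W → ℂ) v := by
      rw [hκ, SchwartzMap.fourierInv_coe]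
    rw [h1, Real.fourierInv_eq_fourier_neg]
    rfl
  have hdec : ∀ v, ‖κ v‖ ≤ D * (1 + ‖v‖) ^ (-(q : ℝ)) := by
    intro v
    have hiI : ∀ (k n : ℕ), ((k : ℕ∞)) ≤ ((0 : ℕ) : ℕ∞) → ((n : ℕ∞)) ≤ (⊤ : ℕ∞) →
        Integrable (fun v ↦ ‖v‖ ^ k * ‖iteratedFDeriv ℝ n (fun ζ => G (μ, ζ)) v‖) := by
      intro k n _ _
      exact gS.integrable_pow_mul_iteratedFDeriv volume k n
    have h1 := fun n => Real.pow_mul_norm_iteratedFDeriv_fourier_le (K := ((0 : ℕ) : ℕ∞)) (N := ⊤)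
      (f := fun ζ => G (μ, ζ)) (hsm μ) hiI (k := 0) (n := n) le_rfl le_top (-v)
    have h2 := h1 0
    have h3 := h1 q
    simp only [norm_iteratedFDeriv_zero, ← hκ1, norm_neg, pow_zero, one_mul, zero_add,
      Finset.range_one, Finset.singleton_product, Finset.sum_map, Function.Embedding.coeFn_mk,
      Nat.cast_zero, mul_zero, mul_one, one_pow, Finset.sum_singleton] at h2 h3
    have h4 : ∑ j ∈ Finset.range (q + 1), ∫ ζ, ‖iteratedFDeriv ℝ j (fun ζ => G (μ, ζ)) ζ‖ ≤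
        ∑ j ∈ Finset.range (q + 1), B j * V := Finset.sum_le_sum fun j _ => hint j μ hμ
    have h5 : ‖κ v‖ ≤ B 0 * V := by
      have := hint 0 μ hμ
      simp only [norm_iteratedFDeriv_zero] at this
      exact h2.trans this
    have h6 : ‖v‖ ^ q * ‖κ v‖ ≤ 2 ^ q * ∑ j ∈ Finset.range (q + 1), B j * V :=
      h3.trans (mul_le_mul_of_nonneg_left h4 (by positivity))
    have h7 : (1 + ‖v‖) ^ q ≤ 2 ^ (q - 1) * (1 ^ q + ‖v‖ ^ q) :=
      add_pow_le zero_le_one (norm_nonneg v) q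
    have h8 : (1 + ‖v‖) ^ q * ‖κ v‖ ≤ D := by
      calc (1 + ‖v‖) ^ q * ‖κ v‖ ≤ 2 ^ (q - 1) * (1 ^ q + ‖v‖ ^ q) * ‖κ v‖ :=
            mul_le_mul_of_nonneg_right h7 (norm_nonneg _)
        _ = 2 ^ (q - 1) * (‖κ v‖ + ‖v‖ ^ q * ‖κ v‖) := by ring
        _ ≤ 2 ^ (q - 1) * (B 0 * V + 2 ^ q * ∑ j ∈ Finset.range (q + 1), B j * V) := by
            gcongr
        _ = D := rfl
    have h9 : 0 < (1 + ‖v‖) ^ q := by positivity
    rw [Real.rpow_neg (by positivity), Real.rpow_natCast, ← div_eq_mul_inv, le_div_iff₀ h9]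
    linarith
  refine ⟨κ, κ.continuous, κ.integrable, ?_, ?_, ?_⟩
  · have h1 : ∫⁻ v, ‖κ v‖ₑ ≤ ∫⁻ v : W, ENNReal.ofReal (D * (1 + ‖v‖) ^ (-(q : ℝ))) := by
      refine lintegral_mono fun v => ?_
      rw [← ofReal_norm]
      exact ENNReal.ofReal_le_ofReal (hdec v)
    refine h1.trans ?_
    rw [← ofReal_integral_eq_lintegral_ofReal (hJi.const_mul D) (Eventually.of_forall fun v => by
      positivity), integral_const_mul]
    exact ENNReal.ofReal_le_ofReal (by linarith)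
  · intro ζ
    rw [← F_eq, ← SchwartzMap.fourier_coe, hinv]
    rfl
  · intro v
    rw [hκ1, F_eq]
    refine integral_congr_ae (Eventually.of_forall fun ζ => ?_)
    simp only
    rw [inner_neg_right, neg_neg, real_inner_comm]

end Pool.Agent.Helper66K9.LSH
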