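import Pool.Agent.Helper66K9.LSH.Yg
set_option autoImplicit false

/-! # Cells -/

namespace Pool.Agent.Helper66K9.LSH

open MeasureTheory Set Filter
open scoped ENNReal FourierTransform RealInnerProductSpace Topology
open Pool.Agent.TH280.LS
open Pool.Agent.Helper66K9.LS (om om_meas om_le om_pos om_mul_le mI TM TM_meas TM_L2 Mt Mt_mul
  Mt_meas Sym ae_pi_pos ae_pi_all T12 T12_meas T12_sub TM_add Mul NCb TM_Lp)
open Pool.Agent.Helper66K9.LSG

variable {k ℓ n : ℕ}

/-- the indices of the cells -/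
abbrev Ix (k n : ℕ) : Type := (Fin k → ℤ) × (Fin n → ℤ)

/-- the cell of a point -/
noncomputable def cel (z : Wm k ℓ n) : Ix k n :=
  (fun i => ⌊‖((am k ℓ n).symm z).1 i‖⌋, fun j => ⌊((am k ℓ n).symm z).2 j⌋)

theorem cel_am (q : (Fin k → Em ℓ) × (Fin n → ℝ)) :
    cel (am k ℓ n q) = (fun i => ⌊‖q.1 i‖⌋, fun j => ⌊q.2 j⌋) := by
  unfold cel
  rw [MeasurableEquiv.symm_apply_apply]

theorem cel_meas : Measurable (cel : Wm k ℓ n → Ix k n) := by
  have h1 : Measurable (fun q : (Fin k → Em ℓ) × (Fin n → ℝ) =>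
      ((fun i => ⌊‖q.1 i‖⌋, fun j => ⌊q.2 j⌋) : Ix k n)) := by
    refine Measurable.prodMk (measurable_pi_lambda _ fun i => ?_)
      (measurable_pi_lambda _ fun j => ?_)
    · exact Int.measurable_floor.comp (by fun_prop)
    · exact Int.measurable_floor.comp (by fun_prop)
  exact h1.comp (am k ℓ n).symm.measurable

/-- neighbouring cells -/
def near (c m : Ix k n) : Prop := (∀ i, |c.1 i - m.1 i| ≤ 4) ∧ ∀ j, |c.2 j - m.2 j| ≤ 4

theorem floor_near {a b : ℝ} (h : |a - b| < 4) : |⌊a⌋ - ⌊b⌋| ≤ 4 := by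
  have h1 := Int.floor_le a
  have h2 := Int.lt_floor_add_one a
  have h3 := Int.floor_le b
  have h4 := Int.lt_floor_add_one b
  rw [abs_lt] at h
  have h5 : (⌊a⌋ : ℝ) - ⌊b⌋ < 5 := by linarith
  have h6 : (-5 : ℝ) < (⌊a⌋ : ℝ) - ⌊b⌋ := by linarith
  have h7 : ⌊a⌋ - ⌊b⌋ < 5 := by exact_mod_cast h5
  have h8 : -5 < ⌊a⌋ - ⌊b⌋ := by exact_mod_cast h6
  rw [abs_le]
  omega

theorem am_sub (p q : (Fin k → Em ℓ) × (Fin n → ℝ)) :
    am k ℓ n (p - q) = am k ℓ n p - am k ℓ n q := by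
  ext j
  rcases j with ⟨i, a⟩ | j <;> rfl

theorem near_of_dist {z w : Wm k ℓ n} (h : ‖z - w‖ < 4) : near (cel z) (cel w) := by
  obtain ⟨p, rfl⟩ := (am k ℓ n).surjective z
  obtain ⟨q, rfl⟩ := (am k ℓ n).surjective w
  rw [← am_sub] at h
  rw [cel_am, cel_am]
  refine ⟨fun i => floor_near ?_, fun j => floor_near ?_⟩
  · have h1 := norm_blk_le (p - q) i
    have h2 := abs_norm_sub_norm_le (p.1 i) (q.1 i)
    have h3 : (p - q).1 i = p.1 i - q.1 i := rfl
    rw [h3] at h1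
    linarith
  · have h1 := abs_co_le (p - q) j
    have h3 : (p - q).2 j = p.2 j - q.2 j := rfl
    rw [h3] at h1
    linarith

theorem near_meas (m : Ix k n) : MeasurableSet {w : Wm k ℓ n | near (cel w) m} :=
  cel_meas (Set.to_countable {c : Ix k n | near c m}).measurableSet

/-- the part of a function near a cell -/
noncomputable def fst' (f : Wm k ℓ n → ℂ) (m : Ix k n) : Wm k ℓ n → ℂ :=
  {w | near (cel w) m}.indicator f

/-- the class of data in standard coordinates -/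
structure ClsH (k ℓ n : ℕ) (f : Wm k ℓ n → ℂ) : Prop where
  meas : Measurable f
  inv : Inv f
  int : Integrable f
  sq : ∫⁻ z, ‖f z‖ₑ ^ (2 : ℝ) < ∞

theorem fst_inv {f : Wm k ℓ n → ℂ} (hI : Inv f) (m : Ix k n) : Inv (fst' f m) := by
  refine hI.indicator fun y y' x h => ?_
  simp only [mem_ofPred_eq]
  rw [cel_am, cel_am]
  simp only [h]

theorem fst_near {f : Wm k ℓ n → ℂ} {m : Ix k n} {q : (Fin k → Em ℓ) × (Fin n → ℝ)}
    (h : fst' f m (am k ℓ n q) ≠ 0) :
    (∀ i, (m.1 i : ℝ) - 4 ≤ ‖q.1 i‖ ∧ ‖q.1 i‖ < m.1 i + 5) ∧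
      ∀ j, (m.2 j : ℝ) - 4 ≤ q.2 j ∧ q.2 j < m.2 j + 5 := by
  have h1 : am k ℓ n q ∈ {w : Wm k ℓ n | near (cel w) m} := by
    by_contra hc
    exact h (indicator_of_notMem hc f)
  have h2 : near (cel (am k ℓ n q)) m := h1
  rw [cel_am] at h2
  have key : ∀ (x : ℝ) (c : ℤ), |⌊x⌋ - c| ≤ 4 → (c : ℝ) - 4 ≤ x ∧ x < c + 5 := by
    intro x c hx
    rw [abs_le] at hx
    have h3 := Int.floor_le x
    have h4 := Int.lt_floor_add_one x
    have h5 : (c : ℝ) - 4 ≤ ⌊x⌋ := by
      have : c - 4 ≤ ⌊x⌋ := by omega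
      exact_mod_cast this
    have h6 : (⌊x⌋ : ℝ) ≤ c + 4 := by
      have : ⌊x⌋ ≤ c + 4 := by omega
      exact_mod_cast this
    constructor <;> linarith
  exact ⟨fun i => key _ _ (h2.1 i), fun j => key _ _ (h2.2 j)⟩

theorem cell_est (hDUAL : S_DUAL) (hW : S_W) (k ℓ n : ℕ) (hk : 1 ≤ k) (hℓ : 1 ≤ ℓ)
    (p : ℝ) (hp : 2 < p) (ε : ℝ) (hε : 0 < ε) (δ : ℝ) (hδ : 0 < δ) : ∃ C : ℝ, 0 < C ∧
    ∀ (N A : ℝ) (Ψ : ℝ → ℝ), 1 ≤ N → Sym N A Ψ → ∀ f : Wm k ℓ n → ℂ, ClsH k ℓ n f →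
    ∀ m : Ix k n, ∫⁻ t in T12, ∫⁻ z in goodm k ℓ n (δ / N) ∩ {z | cel z = m},
      ‖TM (Mt Ψ t) (fst' f m) z‖ₑ ^ p ≤
      ENNReal.ofReal (C * A ^ p * N ^ (((k * (2 * ℓ + 1) + n : ℝ) - 1) * (p / 2 - 1) -
        k * min (ℓ * (p - 2)) (1 / k) + ε)) * ∫⁻ z, ‖fst' f m z‖ₑ ^ p := by
  have hk0 : (0 : ℝ) < k := by exact_mod_cast hk
  have hk1 : (1 : ℝ) ≤ k := by exact_mod_cast hk
  have hℓ0 : (0 : ℝ) < ℓ := by exact_mod_cast hℓ
  have hp2 : 0 < p - 2 := by linarith
  set θ : ℝ := min (ℓ * (p - 2)) (1 / k) with hθ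
  have hθ0 : 0 ≤ θ := le_min (by positivity) (by positivity)
  have hθp : θ ≤ ℓ * (p - 2) := min_le_left _ _
  have hθ1 : θ ≤ 1 := (min_le_right _ _).trans (by rw [div_le_one hk0]; exact hk1)
  have hθk : k * θ ≤ 1 := by
    calc k * θ ≤ k * (1 / k) := mul_le_mul_of_nonneg_left (min_le_right _ _) hk0.le
      _ = 1 := by field_simp
  set a : ℝ := ℓ * (p - 2) - θ with ha
  have ha0 : 0 ≤ a := by rw [ha]; linarith
  have hd2 : 2 ≤ k * (2 * ℓ + 1) + n := by nlinarith
  have hcard : ∀ I : Finset (Fin k), (I.card : ℝ) * θ ≤ 1 := by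
    intro I
    have h1 : I.card ≤ k := by simpa using Finset.card_le_univ I
    have h2 : (I.card : ℝ) ≤ k := by exact_mod_cast h1
    nlinarith
  have h1 := fun I : Finset (Fin k) => interp_G hDUAL hW k ℓ n hℓ (by omega) hd2 I θ hθ0 hθ1
    (hcard I) 13 (by norm_num) p hp ε hε
  choose C1 hC1 hint using h1
  set C2 : ℝ := ∑ I, C1 I with hC2
  have hC12 : ∀ I, C1 I ≤ C2 := fun I =>
    Finset.single_le_sum (f := C1) (fun I _ => (hC1 I).le) (Finset.mem_univ I)
  have hC2p : 0 < C2 := lt_of_lt_of_le (hC1 ∅) (hC12 ∅)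
  set B : ℝ := δ⁻¹ ^ a * (1 + δ⁻¹) ^ θ + 1 with hB
  set D : ℝ := 13 ^ a + 2 ^ (a + θ) with hD
  have hBp : 0 < B := by positivity
  have hDp : 0 < D := by positivity
  refine ⟨B ^ k * C2 * D ^ k, by positivity, ?_⟩
  intro N A Ψ hN h f hf m
  have hN0 : 0 < N := by linarith
  have hA := h.nonneg
  set I : Finset (Fin k) := Finset.univ.filter (fun i => m.1 i ≤ 8) with hI
  have hmem : ∀ i, i ∈ I ↔ m.1 i ≤ 8 := fun i => by simp [hI]
  have hfar : ∀ i, i ∉ I → (9 : ℝ) ≤ m.1 i := by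
    intro i hi
    rw [hmem, not_le] at hi
    have : (9 : ℤ) ≤ m.1 i := by omega
    exact_mod_cast this
  set g : Wm k ℓ n → ℂ := fst' f m with hg
  have hgI : Inv g := fst_inv hf.inv m
  have hgi : Integrable g := hf.int.indicator (near_meas m)
  have hgm : Measurable g := hf.meas.indicator (near_meas m)
  set cf : Fin k → ℝ := fun i => if i ∈ I then 1 else (m.1 i : ℝ) ^ (a + θ) with hcf
  have hcf0 : ∀ i, 0 < cf i := by
    intro i
    simp only [hcf]
    split_ifs with hi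
    · exact one_pos
    · have := hfar i hi
      positivity
  have hcfp : 0 < ∏ i, cf i := Finset.prod_pos fun i _ => hcf0 i
  set W : Wm k ℓ n → ℝ≥0∞ := fun z => Ob I θ N z * ENNReal.ofReal (Yf z) ^ (p - 2)
    with hWd
  have hWam : ∀ q : (Fin k → Em ℓ) × (Fin n → ℝ), (∀ i, 0 < ‖q.1 i‖) → W (am k ℓ n q) =
      ENNReal.ofReal (∏ i, ((if i ∈ I then om N ‖q.1 i‖ ^ θ else 1) * ‖q.1 i‖ ^ (a + θ))) := by
    intro q hq
    have hn : ∀ i : Fin k, 0 ≤ (if i ∈ I then om N ‖q.1 i‖ ^ θ else 1) := by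
      intro i
      split_ifs
      · exact Real.rpow_nonneg (om_pos hN _).le _
      · exact zero_le_one
    simp only [hWd]
    rw [Ob_am, Yf_am, ENNReal.ofReal_rpow_of_pos (Finset.prod_pos fun i _ => pow_pos (hq i) _),
      ← Real.finsetProd_rpow _ _ (fun i _ => by positivity), Finset.prod_mul_distrib,
      ENNReal.ofReal_mul (Finset.prod_nonneg fun i _ => hn i),
      ENNReal.ofReal_prod_of_nonneg (fun i _ => hn i)]
    congr 1
    · refine Finset.prod_congr rfl fun i _ => ?_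
      split_ifs
      · rw [ENNReal.ofReal_rpow_of_pos (om_pos hN _)]
      · simp
    · congr 1
      refine Finset.prod_congr rfl fun i _ => ?_
      rw [← Real.rpow_natCast, ← Real.rpow_mul (norm_nonneg _)]
      congr 1
      rw [ha]
      ring
  have hNa : 1 ≤ N ^ a := Real.one_le_rpow hN ha0
  set c1 : ℝ := (B * N ^ a) ^ k * (∏ i, cf i)⁻¹ with hc1
  have hc1p : 0 < c1 := by positivity
  have hlow : ∀ z ∈ goodm k ℓ n (δ / N) ∩ {z | cel z = m}, 1 ≤ ENNReal.ofReal c1 * W z := by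
    rintro z ⟨hz, hzc⟩
    obtain ⟨q, rfl⟩ := (am k ℓ n).surjective z
    have h1 : ∀ i, δ / N < ‖q.1 i‖ := by
      intro i
      have h3 := PiLp.norm_apply_le (p := 2) (q.1 i) 0
      rw [Real.norm_eq_abs] at h3
      exact (hz i).trans_le h3
    have hzc' : cel (am k ℓ n q) = m := hzc
    rw [cel_am] at hzc'
    have hm : ∀ i, (m.1 i : ℝ) ≤ ‖q.1 i‖ := by
      intro i
      rw [← hzc']
      exact Int.floor_le _
    have hδN : 0 < δ / N := by positivity
    rw [hWam q fun i => hδN.trans (h1 i), ← ENNReal.ofReal_mul (by positivity),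
      ← ENNReal.ofReal_one]
    apply ENNReal.ofReal_le_ofReal
    have h2 : c1 * ∏ i, ((if i ∈ I then om N ‖q.1 i‖ ^ θ else 1) * ‖q.1 i‖ ^ (a + θ)) =
        ∏ i : Fin k, ((B * N ^ a) * ((cf i)⁻¹ *
          ((if i ∈ I then om N ‖q.1 i‖ ^ θ else 1) * ‖q.1 i‖ ^ (a + θ)))) := by
      rw [Finset.prod_mul_distrib (f := fun _ : Fin k => B * N ^ a)
        (g := fun i => (cf i)⁻¹ *
          ((if i ∈ I then om N ‖q.1 i‖ ^ θ else 1) * ‖q.1 i‖ ^ (a + θ))), Finset.prod_const,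
        Finset.card_univ, Fintype.card_fin,
        Finset.prod_mul_distrib (f := fun i => (cf i)⁻¹)
        (g := fun i => (if i ∈ I then om N ‖q.1 i‖ ^ θ else 1) * ‖q.1 i‖ ^ (a + θ)),
        Finset.prod_inv_distrib, hc1]
      ring
    rw [h2]
    calc (1 : ℝ) = ∏ _i : Fin k, (1 : ℝ) := by simp
      _ ≤ _ := Finset.prod_le_prod (fun i _ => zero_le_one) fun i _ => ?_
    have hρ : 0 < ‖q.1 i‖ := hδN.trans (h1 i)
    simp only [hcf]
    by_cases hi : i ∈ I
    · rw [if_pos hi, if_pos hi, inv_one, one_mul]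
      refine (lowpt hθ0 ha0 hN hδ (h1 i)).trans ?_
      have := om_pos hN ‖q.1 i‖
      refine mul_le_mul_of_nonneg_right ?_ (by positivity)
      refine mul_le_mul_of_nonneg_right ?_ (by positivity)
      rw [hB]
      linarith
    · rw [if_neg hi, if_neg hi, one_mul]
      have h9 := hfar i hi
      have hm0 : 0 < (m.1 i : ℝ) := by linarith
      have h10 : 1 ≤ ((m.1 i : ℝ) ^ (a + θ))⁻¹ * ‖q.1 i‖ ^ (a + θ) := by
        rw [inv_mul_eq_div, le_div_iff₀ (by positivity), one_mul]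
        exact Real.rpow_le_rpow hm0.le (hm i) (by positivity)
      have h11 : 1 ≤ B := by
        rw [hB]
        have : 0 ≤ δ⁻¹ ^ a * (1 + δ⁻¹) ^ θ := by positivity
        linarith
      exact one_le_mul_of_one_le_of_one_le (one_le_mul_of_one_le_of_one_le h11 hNa) h10
  have hup : ∀ᵐ z : Wm k ℓ n, W z * ‖g z‖ₑ ^ p ≤
      ENNReal.ofReal (D ^ k * ∏ i, cf i) * ‖g z‖ₑ ^ p := by
    have h1 := (am_mp k ℓ n).symm.quasiMeasurePreserving.ae (ae_ne0' k ℓ n)
    filter_upwards [h1] with z hz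
    obtain ⟨q, rfl⟩ := (am k ℓ n).surjective z
    rw [MeasurableEquiv.symm_apply_apply] at hz
    by_cases h0 : g (am k ℓ n q) = 0
    · rw [h0]
      have : (0 : ℝ) < p := by linarith
      simp [this]
    · refine mul_le_mul_left ?_ _
      rw [hWam q fun i => norm_pos_iff.2 (hz i)]
      apply ENNReal.ofReal_le_ofReal
      obtain ⟨hn1, -⟩ := fst_near h0
      calc ∏ i, ((if i ∈ I then om N ‖q.1 i‖ ^ θ else 1) * ‖q.1 i‖ ^ (a + θ))
          ≤ ∏ i : Fin k, D * cf i := by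
            refine Finset.prod_le_prod (fun i _ => ?_) fun i _ => ?_
            · have := om_pos hN ‖q.1 i‖
              split_ifs <;> positivity
            · have hρ : 0 < ‖q.1 i‖ := norm_pos_iff.2 (hz i)
              simp only [hcf]
              by_cases hi : i ∈ I
              · rw [if_pos hi, if_pos hi, mul_one]
                have hm8 : (m.1 i : ℝ) ≤ 8 := by exact_mod_cast (hmem i).1 hi
                have hρ13 : ‖q.1 i‖ ≤ 13 := by linarith [(hn1 i).2]
                calc om N ‖q.1 i‖ ^ θ * ‖q.1 i‖ ^ (a + θ)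
                    ≤ (‖q.1 i‖⁻¹) ^ θ * ‖q.1 i‖ ^ (a + θ) := by
                      refine mul_le_mul_of_nonneg_right ?_ (by positivity)
                      exact Real.rpow_le_rpow (om_pos hN _).le (om_mul_le hN hρ) hθ0
                  _ = ‖q.1 i‖ ^ a := by
                      rw [Real.inv_rpow hρ.le, ← Real.rpow_neg hρ.le, ← Real.rpow_add hρ]
                      congr 1
                      ring
                  _ ≤ 13 ^ a := Real.rpow_le_rpow hρ.le hρ13 ha0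
                  _ ≤ D := by
                      rw [hD]
                      have : (0 : ℝ) ≤ 2 ^ (a + θ) := by positivity
                      linarith
              · rw [if_neg hi, if_neg hi, one_mul]
                have h9 := hfar i hi
                have h2m : ‖q.1 i‖ ≤ 2 * m.1 i := by linarith [(hn1 i).2]
                calc ‖q.1 i‖ ^ (a + θ) ≤ (2 * m.1 i) ^ (a + θ) :=
                      Real.rpow_le_rpow hρ.le h2m (by positivity)
                  _ = 2 ^ (a + θ) * (m.1 i : ℝ) ^ (a + θ) :=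
                      Real.mul_rpow (by norm_num) (by linarith)
                  _ ≤ _ := by
                      refine mul_le_mul_of_nonneg_right ?_ (by positivity)
                      rw [hD]
                      have : (0 : ℝ) ≤ 13 ^ a := by positivity
                      linarith
        _ = _ := by
            rw [Finset.prod_mul_distrib, Finset.prod_const, Finset.card_univ, Fintype.card_fin]
  set c : (Fin k → ℝ) × (Fin n → ℝ) := (fun i => (m.1 i : ℝ), fun j => (m.2 j : ℝ)) with hc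
  have hsupp1 : ∀ w : (Fin k → ℝ) × (Fin n → ℝ), (∀ i, 0 < w.1 i) → VVm g w ≠ 0 →
      w ∈ Bx c 13 := by
    intro w hw hz
    have h1 : g (am k ℓ n (fun i => w.1 i • em ℓ, w.2)) ≠ 0 := by
      intro h0
      apply hz
      unfold VVm GF
      rw [h0, mul_zero]
    obtain ⟨h2, h3⟩ := fst_near h1
    simp only [norm_smul_em] at h2
    refine ⟨fun i => ?_, fun j => ?_⟩
    · have h4 := h2 i
      rw [abs_of_pos (hw i)] at h4
      simp only [hc]
      rw [abs_le]
      constructor <;> linarith [h4.1, h4.2]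
    · have h4 := h3 j
      simp only [hc] at h4 ⊢
      rw [abs_le]
      constructor <;> linarith [h4.1, h4.2]
  have hsupp2 : ∀ y x, g (am k ℓ n (y, x)) ≠ 0 → ∀ i ∈ I, ‖y i‖ ≤ 13 := by
    intro y x h0 i hi
    obtain ⟨h2, -⟩ := fst_near h0
    have hm8 : (m.1 i : ℝ) ≤ 8 := by exact_mod_cast (hmem i).1 hi
    have := (h2 i).2
    simp only at this
    linarith
  have h2 := hint I N A Ψ hN h g hgI hgi hgm c hsupp1 hsupp2
  have hSm : MeasurableSet (goodm k ℓ n (δ / N) ∩ {z | cel z = m}) :=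
    (goodm_meas k ℓ n _).inter (cel_meas (measurableSet_singleton m))
  have hNN : (N ^ a) ^ k * N ^ (((k + n : ℝ) - 1) * (p / 2 - 1) + ε) =
      N ^ (((k * (2 * ℓ + 1) + n : ℝ) - 1) * (p / 2 - 1) - k * θ + ε) := by
    rw [← Real.rpow_natCast (N ^ a) k, ← Real.rpow_mul hN0.le, ← Real.rpow_add hN0]
    congr 1
    rw [ha]
    ring
  calc ∫⁻ t in T12, ∫⁻ z in goodm k ℓ n (δ / N) ∩ {z | cel z = m}, ‖TM (Mt Ψ t) g z‖ₑ ^ p
      ≤ ∫⁻ t in T12, ENNReal.ofReal c1 * ∫⁻ z, W z * ‖TM (Mt Ψ t) g z‖ₑ ^ p := by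
        refine lintegral_mono fun t => ?_
        calc ∫⁻ z in goodm k ℓ n (δ / N) ∩ {z | cel z = m}, ‖TM (Mt Ψ t) g z‖ₑ ^ p
            ≤ ∫⁻ z in goodm k ℓ n (δ / N) ∩ {z | cel z = m},
              ENNReal.ofReal c1 * (W z * ‖TM (Mt Ψ t) g z‖ₑ ^ p) := by
              refine setLIntegral_mono' hSm fun z hz => ?_
              rw [← mul_assoc]
              exact le_mul_of_one_le_left zero_le (hlow z hz)
          _ ≤ ∫⁻ z, ENNReal.ofReal c1 * (W z * ‖TM (Mt Ψ t) g z‖ₑ ^ p) :=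
              setLIntegral_le_lintegral _ _
          _ = _ := lintegral_const_mul' _ _ ENNReal.ofReal_ne_top
    _ = ENNReal.ofReal c1 * ∫⁻ t in T12, ∫⁻ z, W z * ‖TM (Mt Ψ t) g z‖ₑ ^ p :=
        lintegral_const_mul' _ _ ENNReal.ofReal_ne_top
    _ ≤ ENNReal.ofReal c1 * (ENNReal.ofReal (C2 * A ^ p *
        N ^ (((k + n : ℝ) - 1) * (p / 2 - 1) + ε)) *
        (ENNReal.ofReal (D ^ k * ∏ i, cf i) * ∫⁻ z, ‖g z‖ₑ ^ p)) := by
        refine mul_le_mul_right (h2.trans (mul_le_mul' (ENNReal.ofReal_le_ofReal ?_) ?_)) _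
        · have := hC12 I
          gcongr
        · rw [← lintegral_const_mul' _ _ ENNReal.ofReal_ne_top]
          exact lintegral_mono_ae hup
    _ = _ := by
        rw [← mul_assoc, ← mul_assoc, ← ENNReal.ofReal_mul (by positivity),
          ← ENNReal.ofReal_mul (by positivity)]
        congr 2
        rw [← hNN, hc1, mul_pow]
        field_simp

end Pool.Agent.Helper66K9.LSH
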