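import Mathlib
set_option autoImplicit false

/-! # Entire functions with `C (y²) = cos y`, `y S (y²) = sin y` -/

namespace Pool.Agent.Helper66K9.LSH

open Set Filter
open scoped ENNReal NNReal Topology ContDiff

theorem ent_smooth (c : ℕ → ℝ) (hc : ∀ n, |c n| ≤ 1 / (n.factorial : ℝ)) :
    ContDiff ℝ ∞ (fun x : ℝ => ∑' n : ℕ, c n * x ^ n) := by
  have hr : (FormalMultilinearSeries.ofScalars ℝ c).radius = ⊤ := by
    refine FormalMultilinearSeries.radius_eq_top_of_summable_norm _ fun r => ?_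
    refine Summable.of_nonneg_of_le (fun n => by positivity) (fun n => ?_)
      (Real.summable_pow_div_factorial (r : ℝ))
    rw [FormalMultilinearSeries.ofScalars_norm, Real.norm_eq_abs]
    calc |c n| * (r : ℝ) ^ n ≤ 1 / (n.factorial : ℝ) * (r : ℝ) ^ n :=
          mul_le_mul_of_nonneg_right (hc n) (by positivity)
      _ = _ := by ring
  have h1 := (FormalMultilinearSeries.ofScalars ℝ c).hasFPowerSeriesOnBall (by rw [hr]; simp)
  rw [hr] at h1
  have h2 : (FormalMultilinearSeries.ofScalars ℝ c).sum = fun x : ℝ => ∑' n : ℕ, c n * x ^ n := by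
    have h3 := FormalMultilinearSeries.ofScalarsSum_eq_tsum (E := ℝ) c
    unfold FormalMultilinearSeries.ofScalarsSum at h3
    rw [h3]
    rfl
  rw [h2] at h1
  have h4 := h1.analyticOnNhd
  refine AnalyticOnNhd.contDiff ?_
  intro x _
  exact h4 x (by simp)

/-- `cos (√x)` -/
noncomputable def Cf (x : ℝ) : ℝ := ∑' n : ℕ, ((-1) ^ n / ((2 * n).factorial : ℝ)) * x ^ n

/-- `sin (√x) / √x` -/
noncomputable def Sf (x : ℝ) : ℝ := ∑' n : ℕ, ((-1) ^ n / ((2 * n + 1).factorial : ℝ)) * x ^ n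

theorem Cf_smooth : ContDiff ℝ ∞ Cf := by
  refine ent_smooth _ fun n => ?_
  rw [abs_div, abs_pow, abs_neg, abs_one, one_pow, Nat.abs_cast]
  refine one_div_le_one_div_of_le (by positivity) ?_
  exact_mod_cast Nat.factorial_le (by omega)

theorem Sf_smooth : ContDiff ℝ ∞ Sf := by
  refine ent_smooth _ fun n => ?_
  rw [abs_div, abs_pow, abs_neg, abs_one, one_pow, Nat.abs_cast]
  refine one_div_le_one_div_of_le (by positivity) ?_
  exact_mod_cast Nat.factorial_le (by omega)

theorem Cf_sq (y : ℝ) : Cf (y ^ 2) = Real.cos y := by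
  unfold Cf
  rw [← (Real.hasSum_cos y).tsum_eq]
  refine tsum_congr fun n => ?_
  rw [← pow_mul]
  ring

theorem Sf_sq (y : ℝ) : y * Sf (y ^ 2) = Real.sin y := by
  unfold Sf
  rw [← (Real.hasSum_sin y).tsum_eq, ← tsum_mul_left]
  refine tsum_congr fun n => ?_
  rw [← pow_mul, pow_succ]
  ring

end Pool.Agent.Helper66K9.LSH
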