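import Pool.Agent.Helper66K9.LSH.PsiB
import Pool.Agent.Helper66K9.LS.OneW
set_option autoImplicit false

/-! # Summation over the frequencies: the high frequency part -/

namespace Pool.Agent.Helper66K9.LSH

open MeasureTheory Set Filter
open scoped ENNReal FourierTransform RealInnerProductSpace Topology
open Pool.Agent.TH280.LS
open Pool.Agent.Helper66K9.LS

theorem high_sum' (W : Type*) [NormedAddCommGroup W] [InnerProductSpace ℝ W]
    [FiniteDimensional ℝ W] [MeasurableSpace W] [BorelSpace W] {a b s E p C0 : ℝ} (hp : 1 ≤ p)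
    (hab : 2 * (a + b) = -s) (hs : 0 ≤ s) (hE : E < s * p) (hC0 : 0 < C0) :
    ∃ C : ℝ, 0 < C ∧ ∀ f : W → ℂ, Integrable f →
    (∀ (τ N : ℝ), 0 < τ → 1 ≤ N →
      ∫⁻ t in T12, ∫⁻ z, ‖TM (Mt (Psi τ a b N) t) f z‖ₑ ^ p ≤
        ENNReal.ofReal (C0 * (N ^ (2 * (a + b))) ^ p * N ^ E) * ∫⁻ z, ‖f z‖ₑ ^ p) →
    ∀ τ : ℝ, 0 < τ → ∫⁻ t in T12, ∫⁻ z, ‖TM (Ht τ a b t) f z‖ₑ ^ p ≤
      ENNReal.ofReal C * ∫⁻ z, ‖f z‖ₑ ^ p := by
  have hp0 : 0 < p := by linarith
  have hab0 : a + b ≤ 0 := by linarith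
  obtain ⟨K, hK, hSym⟩ := Psi_Sym a b
  set r : ℝ := 2 ^ (-s + E / p) with hr
  have hr0 : 0 < r := by positivity
  have hr1 : r < 1 := by
    rw [hr]
    refine Real.rpow_lt_one_of_one_lt_of_neg (by norm_num) ?_
    have : E / p < s := by rwa [div_lt_iff₀ hp0]
    linarith
  have h1r : 0 < (1 - r)⁻¹ := inv_pos.2 (by linarith)
  set D : ℝ := C0 ^ (1 / p) with hD
  have hD0 : 0 < D := by positivity
  refine ⟨(D * (1 - r)⁻¹) ^ p, by positivity, ?_⟩
  intro f hf hpiece τ hτ
  set X : ℝ≥0∞ := ∫⁻ z, ‖f z‖ₑ ^ p with hX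
  have hN1 : ∀ j : ℕ, (1 : ℝ) ≤ 2 ^ (j + 1) := fun j => one_le_pow₀ (by norm_num)
  have hS : ∀ j : ℕ, Sym ((2 : ℝ) ^ (j + 1)) (K * ((2 : ℝ) ^ (j + 1)) ^ (2 * (a + b)))
      (Psi τ a b (2 ^ (j + 1))) := fun j => hSym τ _ hτ.le (hN1 j)
  have hsum : ∀ (J : ℕ) (t : ℝ) (z : W), TM (HJ τ a b J t) f z =
      ∑ j ∈ Finset.range J, TM (Mt (Psi τ a b (2 ^ (j + 1))) t) f z := by
    intro J t z
    unfold TM
    rw [← integral_finset_sum]
    · refine integral_congr_ae (Eventually.of_forall fun ζ => ?_)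
      simp only
      rw [HJ_sum, Finset.sum_mul, Finset.mul_sum]
    · intro j _
      exact int_eMF (int_MF (Mt_mul (hN1 j) (hS j) t) hf) z
  set μ : Measure (ℝ × W) := (volume.restrict T12).prod volume with hμ
  set F : ℕ → ℝ × W → ℂ := fun j q => TM (Mt (Psi τ a b (2 ^ (j + 1))) q.1) f q.2 with hF
  have hFm : ∀ j, Measurable (F j) := fun j => TM_meas (Mt_meas (hS j)) hf
  have hHJm : ∀ J, Measurable (fun q : ℝ × W => TM (HJ τ a b J q.1) f q.2) := fun J =>
    TM_meas (HJ_meas τ a b J) hf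
  have hpe : ENNReal.ofReal p ≠ 0 := by simpa using hp0
  have hLp : ∀ G : ℝ × W → ℂ, eLpNorm G (ENNReal.ofReal p) μ =
      (∫⁻ q, ‖G q‖ₑ ^ p ∂μ) ^ (1 / p) := by
    intro G
    rw [eLpNorm_eq_lintegral_rpow_enorm_toReal hpe ENNReal.ofReal_ne_top,
      ENNReal.toReal_ofReal hp0.le]
  have hprod : ∀ G : ℝ × W → ℂ, Measurable G →
      ∫⁻ q, ‖G q‖ₑ ^ p ∂μ = ∫⁻ t in T12, ∫⁻ z, ‖G (t, z)‖ₑ ^ p := by
    intro G hG
    rw [hμ, lintegral_prod _ (hG.enorm.pow_const p).aemeasurable]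
  have hFj : ∀ j, eLpNorm (F j) (ENNReal.ofReal p) μ ≤
      ENNReal.ofReal (D * r ^ (j + 1)) * X ^ (1 / p) := by
    intro j
    rw [hLp, hprod _ (hFm j)]
    have h1 := hpiece τ _ hτ (hN1 j)
    have h2 := ENNReal.rpow_le_rpow h1 (z := 1 / p) (by positivity)
    refine h2.trans (le_of_eq ?_)
    set N : ℝ := 2 ^ (j + 1) with hN
    have hN0 : 0 < N := by positivity
    rw [ENNReal.mul_rpow_of_nonneg _ _ (by positivity), ENNReal.ofReal_rpow_of_nonneg
      (by positivity) (by positivity)]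
    congr 2
    rw [hab, Real.mul_rpow (by positivity) (by positivity),
      Real.mul_rpow (by positivity) (by positivity), ← Real.rpow_mul (by positivity) p,
      mul_one_div_cancel hp0.ne', Real.rpow_one, ← Real.rpow_mul hN0.le E, hD]
    have e1 : r ^ (j + 1) = N ^ (-s) * N ^ (E * (1 / p)) := by
      rw [← Real.rpow_add hN0, hN, hr, ← Real.rpow_natCast, ← Real.rpow_natCast,
        ← Real.rpow_mul (by norm_num), ← Real.rpow_mul (by norm_num)]
      congr 1
      ring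
    rw [e1]
    ring
  have hJ : ∀ J, ∫⁻ t in T12, ∫⁻ z, ‖TM (HJ τ a b J t) f z‖ₑ ^ p ≤
      ENNReal.ofReal ((D * (1 - r)⁻¹) ^ p) * X := by
    intro J
    have h1 : eLpNorm (fun q : ℝ × W => TM (HJ τ a b J q.1) f q.2) (ENNReal.ofReal p) μ ≤
        ENNReal.ofReal (D * (1 - r)⁻¹) * X ^ (1 / p) := by
      have h2 : (fun q : ℝ × W => TM (HJ τ a b J q.1) f q.2) =
          ∑ j ∈ Finset.range J, F j := by
        funext q
        rw [Finset.sum_apply, hsum]
      rw [h2]
      calc eLpNorm (∑ j ∈ Finset.range J, F j) (ENNReal.ofReal p) μ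
          ≤ ∑ j ∈ Finset.range J, eLpNorm (F j) (ENNReal.ofReal p) μ :=
            eLpNorm_sum_le (fun j _ => (hFm j).aestronglyMeasurable) (by simpa using hp)
        _ ≤ ∑ j ∈ Finset.range J, ENNReal.ofReal (D * r ^ (j + 1)) * X ^ (1 / p) :=
            Finset.sum_le_sum fun j _ => hFj j
        _ = ENNReal.ofReal (D * ∑ j ∈ Finset.range J, r ^ (j + 1)) * X ^ (1 / p) := by
            rw [← Finset.sum_mul, ← ENNReal.ofReal_sum_of_nonneg fun j _ => by positivity,
              Finset.mul_sum]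
        _ ≤ _ := by
            refine mul_le_mul_left (ENNReal.ofReal_le_ofReal ?_) _
            exact mul_le_mul_of_nonneg_left (geo_le hr0.le hr1 J) hD0.le
    rw [hLp, hprod _ (hHJm J)] at h1
    have h3 := ENNReal.rpow_le_rpow h1 hp0.le
    rw [← ENNReal.rpow_mul, one_div_mul_cancel hp0.ne', ENNReal.rpow_one,
      ENNReal.mul_rpow_of_nonneg _ _ hp0.le, ← ENNReal.rpow_mul, one_div_mul_cancel hp0.ne',
      ENNReal.rpow_one, ENNReal.ofReal_rpow_of_nonneg (by positivity) hp0.le] at h3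
    exact h3
  have hconv : ∀ (t : ℝ) (z : W), Tendsto (fun J => TM (HJ τ a b J t) f z) atTop
      (𝓝 (TM (Ht τ a b t) f z)) := by
    intro t z
    unfold TM
    refine tendsto_integral_of_dominated_convergence (fun ζ : W =>
      (1 + 4 * Real.pi ^ 2) ^ |a| * Real.exp (-(τ * ‖ζ‖ ^ 2)) * ∫ z, ‖f z‖) ?_ ?_ ?_ ?_
    · intro J
      refine Measurable.aestronglyMeasurable ?_
      refine Measurable.mul (measurable_e.comp (by fun_prop)) (Measurable.mul ?_
        (cont_F hf).measurable)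
      exact (HJ_meas τ a b J).comp (f := fun ζ : W => (t, ‖ζ‖)) (by fun_prop)
    · exact ((gauss_W hτ).const_mul _).mul_const _
    · intro J
      refine Eventually.of_forall fun ζ => ?_
      rw [norm_mul, norm_e, one_mul, norm_mul]
      exact mul_le_mul (HJ_le hab0 J t _) (norm_F_le f ζ) (norm_nonneg _) (by positivity)
    · refine Eventually.of_forall fun ζ => ?_
      refine Tendsto.const_mul _ (Tendsto.mul_const _ ?_)
      unfold HJ Ht
      refine Tendsto.const_mul _ ((Complex.continuous_ofReal.tendsto _).comp ?_)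
      refine Tendsto.const_mul _ (Tendsto.sub_const ?_ _)
      refine tendsto_const_nhds.congr' ?_
      have h1 : Tendsto (fun J : ℕ => (4 : ℝ) ^ J) atTop atTop :=
        tendsto_pow_atTop_atTop_of_one_lt (by norm_num)
      filter_upwards [h1.eventually_ge_atTop (‖ζ‖ ^ 2)] with J hJ
      rw [th_one]
      rw [div_le_one (by positivity)]
      exact hJ
  calc ∫⁻ t in T12, ∫⁻ z, ‖TM (Ht τ a b t) f z‖ₑ ^ p
      ≤ ∫⁻ t in T12, liminf (fun J => ∫⁻ z, ‖TM (HJ τ a b J t) f z‖ₑ ^ p) atTop := by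
        refine lintegral_mono fun t => ?_
        calc ∫⁻ z, ‖TM (Ht τ a b t) f z‖ₑ ^ p
            = ∫⁻ z, liminf (fun J => ‖TM (HJ τ a b J t) f z‖ₑ ^ p) atTop := by
              refine lintegral_congr fun z => ?_
              symm
              apply Tendsto.liminf_eq
              exact (ENNReal.continuous_rpow_const.tendsto _).comp
                ((continuous_enorm.tendsto _).comp (hconv t z))
          _ ≤ _ := lintegral_liminf_le fun J =>
              ((hHJm J).comp measurable_prodMk_left).enorm.pow_const p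
    _ ≤ liminf (fun J => ∫⁻ t in T12, ∫⁻ z, ‖TM (HJ τ a b J t) f z‖ₑ ^ p)
          atTop := lintegral_liminf_le fun J =>
              Measurable.lintegral_prod_right' ((hHJm J).enorm.pow_const p)
    _ ≤ ENNReal.ofReal ((D * (1 - r)⁻¹) ^ p) * X := by
        refine (liminf_le_liminf (v := fun _ => ENNReal.ofReal ((D * (1 - r)⁻¹) ^ p) * X)
          (Eventually.of_forall fun J => hJ J)).trans (le_of_eq (liminf_const _))

end Pool.Agent.Helper66K9.LSH
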