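import Pool.Agent.Helper66K9.LSH.HiSum
import Pool.Agent.Helper66K9.LSH.Ent
set_option autoImplicit false

/-! # Low frequencies -/

namespace Pool.Agent.Helper66K9.LSH

open MeasureTheory Set Filter
open scoped ENNReal FourierTransform RealInnerProductSpace Topology ContDiff
open Pool.Agent.TH280.LS (e norm_e e_add measurable_e continuous_e plancherel e_conj mc ms)
open Pool.Agent.Helper66K9.LS (F_eq cont_F gauss_W th th_one th_zero th_smooth th_nonneg th_le_one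
  TM Mt Mt_mul Mul int_MF Sym norm_F_le)

variable {W : Type*} [NormedAddCommGroup W] [InnerProductSpace ℝ W] [FiniteDimensional ℝ W]
  [MeasurableSpace W] [BorelSpace W]

theorem low_gen (G : ℝ × W → ℂ) (hG : ContDiff ℝ ∞ G)
    (hsupp : ∀ μ ζ, 2 < ‖ζ‖ → G (μ, ζ) = 0) :
    ∃ K : ℝ, 0 < K ∧ ∀ (τ t p : ℝ), 0 < τ → t ∈ Icc (-2 : ℝ) 2 → 1 < p → ∀ f : W → ℂ,
    Measurable f → Integrable f → ∀ L : ℝ → ℂ,
    (∀ᵐ ζ : W, L ‖ζ‖ = ((Real.exp (-(τ * ‖ζ‖ ^ 2)) : ℝ) : ℂ) * G (t, ζ)) →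
    ∫⁻ z, ‖TM L f z‖ₑ ^ p ≤ ENNReal.ofReal (K ^ p) * ∫⁻ z, ‖f z‖ₑ ^ p := by
  obtain ⟨K, hK, hCS⟩ := CS G hG 2 hsupp 2
  refine ⟨K, hK, ?_⟩
  intro τ t p hτ ht hp f hfm hf L hL
  have hp0 : 0 < p := by linarith
  obtain ⟨κ, hκc, hκi, hκn, -, hκI⟩ := hCS t ht
  obtain ⟨γ, hγc, hγi, hγn, hγF⟩ := heat_ker W hτ
  have hGc : Continuous (fun ζ => G (t, ζ)) := hG.continuous.comp (by fun_prop)
  have hcs : HasCompactSupport (fun ζ => G (t, ζ)) :=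
    HasCompactSupport.intro (isCompact_closedBall (0 : W) 2) fun ζ hζ => hsupp t ζ (by
      simpa using hζ)
  have hGi : Integrable (fun ζ => G (t, ζ)) := hGc.integrable_of_hasCompactSupport hcs
  set h0 : W → ℂ := fun ζ => G (t, ζ) * 𝓕 f ζ with hh0
  have h0i : Integrable h0 := by
    have h1 : Integrable (fun ζ => 𝓕 f ζ * G (t, ζ)) :=
      hGi.bdd_mul (c := ∫ z, ‖f z‖) (cont_F hf).aestronglyMeasurable
        (Eventually.of_forall fun ζ => norm_F_le f ζ)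
    refine h1.congr (Eventually.of_forall fun ζ => ?_)
    simp only [hh0]
    ring
  set g : W → ℂ := fun ζ => (∫ v : W, e (-(⟪v, (1 : ℝ) • ζ⟫ : ℝ)) * γ v) * h0 ζ with hg
  have o2 := opB hγc hγi hγn 1 h0i hp (g := g) (fun ζ => rfl)
  rw [ENNReal.ofReal_one, ENNReal.one_rpow, one_mul] at o2
  have hTM : ∀ z, TM L f z = ∫ ζ : W, e (⟪z, ζ⟫ : ℝ) * g ζ := by
    intro z
    unfold TM
    refine integral_congr_ae ?_
    filter_upwards [hL] with ζ hζ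
    simp only [hg, hh0]
    rw [one_smul, ← hγF, hζ]
    ring
  have hrep : ∀ z, ∫ ζ : W, e (⟪z, ζ⟫ : ℝ) * h0 ζ = ∫ w : W, κ (z - w) * f w := by
    intro z
    have h1 : ∀ ζ : W, e (⟪z, ζ⟫ : ℝ) * h0 ζ =
        ∫ w : W, e (⟪z - w, ζ⟫ : ℝ) * G (t, ζ) * f w := by
      intro ζ
      simp only [hh0]
      rw [F_eq, ← mul_assoc, ← integral_const_mul]
      refine integral_congr_ae (Eventually.of_forall fun w => ?_)
      simp only
      have : e (⟪z - w, ζ⟫ : ℝ) = e (⟪z, ζ⟫ : ℝ) * e (-(⟪w, ζ⟫ : ℝ)) := by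
        rw [← e_add, inner_sub_left, sub_eq_add_neg]
      rw [this]
      ring
    simp_rw [h1]
    rw [integral_integral_swap]
    · refine integral_congr_ae (Eventually.of_forall fun w => ?_)
      simp only
      rw [integral_mul_const, hκI]
    · have h2 : Integrable (fun q : W × W => G (t, q.1) * f q.2) := hGi.mul_prod hf
      have h3 : (Function.uncurry fun (ζ w : W) => e (⟪z - w, ζ⟫ : ℝ) * G (t, ζ) * f w) =
          fun q : W × W => e (⟪z - q.2, q.1⟫ : ℝ) * (G (t, q.1) * f q.2) := by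
        funext q
        simp only [Function.uncurry]
        ring
      rw [h3]
      refine h2.bdd_mul (c := 1) ?_ ?_
      · exact (measurable_e.comp (by fun_prop)).aestronglyMeasurable
      · exact Eventually.of_forall fun ζ => (norm_e _).le
  have hpt : ∀ z, ‖∫ ζ : W, e (⟪z, ζ⟫ : ℝ) * h0 ζ‖ₑ ≤
      ∫⁻ v, ‖κ v‖ₑ * ‖f (z - (1 : ℝ) • v)‖ₑ := by
    intro z
    rw [hrep]
    refine (enorm_integral_le_lintegral_enorm _).trans (le_of_eq ?_)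
    rw [← lintegral_sub_left_eq_self (fun v => ‖κ v‖ₑ * ‖f (z - (1 : ℝ) • v)‖ₑ) z]
    refine lintegral_congr fun w => ?_
    rw [enorm_mul, one_smul, sub_sub_cancel]
  have hy := young_p (κ := fun v => ‖κ v‖ₑ) (g := fun z => ‖f z‖ₑ) hκc.measurable.enorm
    hfm.enorm hp 1 hκn ENNReal.ofReal_ne_top
  calc ∫⁻ z, ‖TM L f z‖ₑ ^ p = ∫⁻ z, ‖∫ ζ : W, e (⟪z, ζ⟫ : ℝ) * g ζ‖ₑ ^ p := by
        refine lintegral_congr fun z => ?_
        rw [hTM]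
    _ ≤ ∫⁻ z, ‖∫ ζ : W, e (⟪z, ζ⟫ : ℝ) * h0 ζ‖ₑ ^ p := o2
    _ ≤ ∫⁻ z, (∫⁻ v, ‖κ v‖ₑ * ‖f (z - (1 : ℝ) • v)‖ₑ) ^ p :=
        lintegral_mono fun z => ENNReal.rpow_le_rpow (hpt z) hp0.le
    _ ≤ ENNReal.ofReal K ^ p * ∫⁻ z, ‖f z‖ₑ ^ p := hy
    _ = _ := by rw [ENNReal.ofReal_rpow_of_nonneg hK.le hp0.le]

/-- the low frequency symbols -/
noncomputable def Gc (W : Type*) [NormedAddCommGroup W] (s : ℝ) (q : ℝ × W) : ℂ :=
  ((Cf ((2 * Real.pi * q.1) ^ 2 * ‖q.2‖ ^ 2) * (1 + 4 * Real.pi ^ 2 * ‖q.2‖ ^ 2) ^ (-(s / 2)) *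
    th (‖q.2‖ ^ 2) : ℝ) : ℂ)

noncomputable def Gs (W : Type*) [NormedAddCommGroup W] (s : ℝ) (q : ℝ × W) : ℂ :=
  ((q.1 * Sf ((2 * Real.pi * q.1) ^ 2 * ‖q.2‖ ^ 2) *
    (1 + 4 * Real.pi ^ 2 * ‖q.2‖ ^ 2) ^ ((1 - s) / 2) * th (‖q.2‖ ^ 2) : ℝ) : ℂ)

omit [FiniteDimensional ℝ W] [MeasurableSpace W] [BorelSpace W] in
theorem G_aux {F : ℝ → ℝ} (hF : ContDiff ℝ ∞ F) (u : ℝ) :
    ContDiff ℝ ∞ (fun q : ℝ × W => F ((2 * Real.pi * q.1) ^ 2 * ‖q.2‖ ^ 2) *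
      (1 + 4 * Real.pi ^ 2 * ‖q.2‖ ^ 2) ^ u * th (‖q.2‖ ^ 2)) := by
  have hn := nsq_smooth (W := W)
  have h1 : ContDiff ℝ ∞ (fun q : ℝ × W => F ((2 * Real.pi * q.1) ^ 2 * ‖q.2‖ ^ 2)) :=
    hF.comp (((contDiff_const.mul contDiff_fst).pow 2).mul hn)
  have h2 : ContDiff ℝ ∞ (fun q : ℝ × W => (1 + 4 * Real.pi ^ 2 * ‖q.2‖ ^ 2) ^ u) := by
    refine ContDiff.rpow_const_of_ne (contDiff_const.add (contDiff_const.mul hn)) fun q => ?_
    have : 0 < 1 + 4 * Real.pi ^ 2 * ‖q.2‖ ^ 2 := by positivity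
    exact this.ne'
  exact (h1.mul h2).mul (th_smooth.comp hn)

omit [FiniteDimensional ℝ W] [MeasurableSpace W] [BorelSpace W] in
theorem Gc_smooth (s : ℝ) : ContDiff ℝ ∞ (Gc W s) :=
  Complex.ofRealCLM.contDiff.comp (G_aux Cf_smooth _)

omit [FiniteDimensional ℝ W] [MeasurableSpace W] [BorelSpace W] in
theorem Gs_smooth (s : ℝ) : ContDiff ℝ ∞ (Gs W s) := by
  have h1 : Gs W s = fun q : ℝ × W => ((q.1 * (Sf ((2 * Real.pi * q.1) ^ 2 * ‖q.2‖ ^ 2) *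
      (1 + 4 * Real.pi ^ 2 * ‖q.2‖ ^ 2) ^ ((1 - s) / 2) * th (‖q.2‖ ^ 2)) : ℝ) : ℂ) := by
    funext q
    unfold Gs
    congr 1
    ring
  rw [h1]
  exact Complex.ofRealCLM.contDiff.comp (contDiff_fst.mul (G_aux Sf_smooth _))

/-- the low frequency part of the propagators -/
theorem low_all (W : Type*) [NormedAddCommGroup W] [InnerProductSpace ℝ W]
    [FiniteDimensional ℝ W] [MeasurableSpace W] [BorelSpace W] [Nontrivial W] (s : ℝ) {p : ℝ}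
    (hp : 1 < p) :
    ∃ K : ℝ, 0 < K ∧ ∀ τ : ℝ, 0 < τ → ∀ t ∈ Icc (1 : ℝ) 2, ∀ f : W → ℂ, Measurable f →
      Integrable f →
      ∫⁻ z, ‖TM (fun ρ => ((mc s τ t ρ * th (ρ ^ 2) : ℝ) : ℂ)) f z‖ₑ ^ p ≤
        ENNReal.ofReal K * ∫⁻ z, ‖f z‖ₑ ^ p ∧
      ∫⁻ z, ‖TM (fun ρ => ((ms s τ t ρ * th (ρ ^ 2) : ℝ) : ℂ)) f z‖ₑ ^ p ≤
        ENNReal.ofReal K * ∫⁻ z, ‖f z‖ₑ ^ p := by
  have hz : ∀ ζ : W, 2 < ‖ζ‖ → th (‖ζ‖ ^ 2) = 0 := fun ζ h => th_zero (by nlinarith)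
  obtain ⟨K1, hK1, h1⟩ := low_gen (Gc W s) (Gc_smooth s) (by
    intro μ ζ hζ
    unfold Gc
    simp only
    rw [hz ζ hζ]
    simp)
  obtain ⟨K2, hK2, h2⟩ := low_gen (Gs W s) (Gs_smooth s) (by
    intro μ ζ hζ
    unfold Gs
    simp only
    rw [hz ζ hζ]
    simp)
  refine ⟨K1 ^ p + K2 ^ p, by positivity, ?_⟩
  intro τ hτ t ht f hfm hf
  have ht' : t ∈ Icc (-2 : ℝ) 2 := ⟨by linarith [ht.1], ht.2⟩
  have hne : ∀ᵐ ζ : W, ζ ≠ 0 := by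
    have : (volume : Measure W) {0} = 0 := measure_singleton _
    exact compl_mem_ae_iff.2 this
  constructor
  · refine (h1 τ t p hτ ht' hp f hfm hf (fun ρ => ((mc s τ t ρ * th (ρ ^ 2) : ℝ) : ℂ))
      (Eventually.of_forall fun ζ => ?_)).trans ?_
    · unfold Gc mc
      rw [← Complex.ofReal_mul]
      congr 1
      simp only
      rw [← mul_pow, Cf_sq]
      have : 2 * Real.pi * (t * ‖ζ‖) = 2 * Real.pi * t * ‖ζ‖ := by ring
      rw [this]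
      ring
    · refine mul_le_mul_left (ENNReal.ofReal_le_ofReal ?_) _
      have : 0 < K2 ^ p := by positivity
      linarith
  · refine (h2 τ t p hτ ht' hp f hfm hf (fun ρ => ((ms s τ t ρ * th (ρ ^ 2) : ℝ) : ℂ))
      ?_).trans ?_
    · filter_upwards [hne] with ζ hζ
      have hζn : ‖ζ‖ ≠ 0 := norm_ne_zero_iff.2 hζ
      have hpi := Real.pi_ne_zero
      have ht0 : t ≠ 0 := by
        have := ht.1
        intro h
        rw [h] at this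
        norm_num at this
      unfold Gs ms
      rw [← Complex.ofReal_mul]
      congr 1
      simp only
      have h3 : Real.sin (2 * Real.pi * (t * ‖ζ‖)) / (2 * Real.pi * ‖ζ‖) =
          t * Sf ((2 * Real.pi * t) ^ 2 * ‖ζ‖ ^ 2) := by
        have h4 := Sf_sq (2 * Real.pi * t * ‖ζ‖)
        have h5 : 2 * Real.pi * (t * ‖ζ‖) = 2 * Real.pi * t * ‖ζ‖ := by ring
        rw [h5, ← h4, ← mul_pow]
        field_simp
      rw [h3]
      ring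
    · refine mul_le_mul_left (ENNReal.ofReal_le_ofReal ?_) _
      have : 0 < K1 ^ p := by positivity
      linarith

end Pool.Agent.Helper66K9.LSH
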