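import Pool.Agent.Helper66K9.LSH.LowB
set_option autoImplicit false

/-! # The two propagators -/

namespace Pool.Agent.Helper66K9.LSH

open MeasureTheory Set Filter
open scoped ENNReal FourierTransform RealInnerProductSpace Topology
open Pool.Agent.TH280.LS
open Pool.Agent.Helper66K9.LS

/-- the estimate for the frequency pieces with weights -/
def PieceP (W : Type*) [NormedAddCommGroup W] [InnerProductSpace ℝ W]
    [FiniteDimensional ℝ W] [MeasurableSpace W] [BorelSpace W] (p E C0 a b : ℝ) (f : W → ℂ) :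
    Prop :=
  ∀ (τ N : ℝ), 0 < τ → 1 ≤ N →
      ∫⁻ t in T12, ∫⁻ z, ‖TM (Mt (Psi τ a b N) t) f z‖ₑ ^ p ≤
        ENNReal.ofReal (C0 * (N ^ (2 * (a + b))) ^ p * N ^ E) * ∫⁻ z, ‖f z‖ₑ ^ p

/-- the estimate for the frequency pieces -/
def PieceC (W : Type*) [NormedAddCommGroup W] [InnerProductSpace ℝ W]
    [FiniteDimensional ℝ W] [MeasurableSpace W] [BorelSpace W] (p E C0 : ℝ) (f : W → ℂ) :
    Prop :=
  ∀ N : ℝ, 1 ≤ N →
      ∫⁻ t in T12, ∫⁻ z, ‖TM (Mt (chiN N) t) f z‖ₑ ^ p ≤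
        ENNReal.ofReal (C0 * N ^ E) * ∫⁻ z, ‖f z‖ₑ ^ p

theorem PieceC.toP (W : Type*) [NormedAddCommGroup W] [InnerProductSpace ℝ W]
    [FiniteDimensional ℝ W] [MeasurableSpace W] [BorelSpace W] (a b : ℝ) {p : ℝ} (hp : 1 < p) :
    ∃ K : ℝ, 0 < K ∧ ∀ (E C0 : ℝ) (f : W → ℂ), 0 < C0 → Integrable f → PieceC W p E C0 f →
      PieceP W p E (K * C0) a b f := by
  obtain ⟨K, hK, h⟩ := psi_piece W a b
  have hp0 : 0 < p := by linarith
  refine ⟨K ^ p, by positivity, ?_⟩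
  intro E C0 f hC0 hf hpc τ N hτ hN
  have hN0 : 0 < N := by linarith
  calc ∫⁻ t in T12, ∫⁻ z, ‖TM (Mt (Psi τ a b N) t) f z‖ₑ ^ p
      ≤ ∫⁻ t in T12, ENNReal.ofReal ((K * N ^ (2 * (a + b))) ^ p) *
        ∫⁻ z, ‖TM (Mt (chiN N) t) f z‖ₑ ^ p :=
        lintegral_mono fun t => h τ N p t hτ hN hp f hf
    _ = ENNReal.ofReal ((K * N ^ (2 * (a + b))) ^ p) *
        ∫⁻ t in T12, ∫⁻ z, ‖TM (Mt (chiN N) t) f z‖ₑ ^ p :=
        lintegral_const_mul' _ _ ENNReal.ofReal_ne_top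
    _ ≤ ENNReal.ofReal ((K * N ^ (2 * (a + b))) ^ p) *
        (ENNReal.ofReal (C0 * N ^ E) * ∫⁻ z, ‖f z‖ₑ ^ p) := mul_le_mul_right (hpc N hN) _
    _ = _ := by
        rw [← mul_assoc, ← ENNReal.ofReal_mul (by positivity),
          Real.mul_rpow hK.le (by positivity)]
        congr 2
        ring

theorem three' (W : Type*) [NormedAddCommGroup W] [InnerProductSpace ℝ W]
    [FiniteDimensional ℝ W] [MeasurableSpace W] [BorelSpace W] {a b s E p C0 : ℝ} (CL : ℝ)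
    (hp : 2 < p) (hab : 2 * (a + b) = -s) (hs : 0 ≤ s) (hE : E < s * p) (hC0 : 0 < C0)
    {K : ℝ} (hK : 0 < K) :
    ∃ C : ℝ, 0 < C ∧ ∀ f : W → ℂ, Integrable f →
    PieceP W p E C0 a b f → ∀ τ : ℝ, 0 < τ → ∀ (m L : ℝ → ℝ → ℂ) (c1 c2 : ℂ), ‖c1‖ ≤ 1 →
    ‖c2‖ ≤ 1 → (∀ t ∈ Icc (1 : ℝ) 2, Mul CL 2 (L t)) →
    (∀ t ∈ Icc (1 : ℝ) 2, ∫⁻ z, ‖TM (L t) f z‖ₑ ^ p ≤ ENNReal.ofReal K * ∫⁻ z, ‖f z‖ₑ ^ p) →
    (∀ t ∈ Icc (1 : ℝ) 2, ∀ ρ, 0 ≤ ρ →
      m t ρ = L t ρ + (c1 * Ht τ a b t ρ + c2 * Ht τ a b (-t) ρ)) →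
    ∫⁻ t in Icc (1 : ℝ) 2, ∫⁻ z, ‖TM (m t) f z‖ₑ ^ p ≤ ENNReal.ofReal C * ∫⁻ z, ‖f z‖ₑ ^ p := by
  have hp0 : 0 < p := by linarith
  have hab0 : a + b ≤ 0 := by linarith
  obtain ⟨CH, hCH, hH⟩ := high_sum' W (p := p) (by linarith) hab hs hE hC0
  set B : ℝ := 2 ^ (p - 1) with hB
  have hB0 : 0 < B := by positivity
  have h2p : (2 : ℝ≥0∞) ^ (p - 1) = ENNReal.ofReal B := by
    rw [hB, ← ENNReal.ofReal_rpow_of_pos (by norm_num)]
    norm_num
  refine ⟨B * (K + B * (2 * CH)), by positivity, ?_⟩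
  intro f hf hpiece τ hτ m L c1 c2 hc1 hc2 hMul hL hm
  have hHf := hH f hf hpiece τ hτ
  set X : ℝ≥0∞ := ∫⁻ z, ‖f z‖ₑ ^ p with hX
  set A : ℝ → ℝ≥0∞ := fun t => ∫⁻ z, ‖TM (Ht τ a b t) f z‖ₑ ^ p with hA
  have hHm : Measurable (fun q : ℝ × W => TM (Ht τ a b q.1) f q.2) := TM_meas (Ht_meas τ a b) hf
  have hAm : Measurable A := Measurable.lintegral_prod_right' (hHm.enorm.pow_const p)
  have hHtm : ∀ t, Measurable (Ht τ a b t) := fun t =>
    (Ht_meas τ a b).comp (f := fun ρ : ℝ => (t, ρ)) (by fun_prop)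
  have hHz : ∀ t, Measurable (TM (Ht τ a b t) f) := fun t => TM_meas1 (hHtm t) hf
  have hpt : ∀ t ∈ Icc (1 : ℝ) 2, ∀ z, ‖TM (m t) f z‖ₑ ^ p ≤ ENNReal.ofReal B *
      (‖TM (L t) f z‖ₑ ^ p + ENNReal.ofReal B * (‖TM (Ht τ a b t) f z‖ₑ ^ p +
        ‖TM (Ht τ a b (-t)) f z‖ₑ ^ p)) := by
    intro t ht z
    have i0 := int_eMF (int_MF (hMul t ht) hf) z
    have i1 := int_of_gauss hτ (hHtm t) (fun ρ _ => Ht_le hab0 t ρ) hf z
    have i2 := int_of_gauss hτ (hHtm (-t)) (fun ρ _ => Ht_le hab0 (-t) ρ) hf z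
    have e1 : TM (m t) f z = TM (L t) f z + (c1 * TM (Ht τ a b t) f z +
        c2 * TM (Ht τ a b (-t)) f z) := by
      unfold TM
      have i3 : Integrable (fun ζ : W => c1 * (e (⟪z, ζ⟫ : ℝ) * (Ht τ a b t ‖ζ‖ * 𝓕 f ζ)) +
          c2 * (e (⟪z, ζ⟫ : ℝ) * (Ht τ a b (-t) ‖ζ‖ * 𝓕 f ζ))) :=
        (i1.const_mul _).add (i2.const_mul _)
      rw [← integral_const_mul, ← integral_const_mul, ← integral_add (i1.const_mul _)
        (i2.const_mul _), ← integral_add i0 i3]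
      refine integral_congr_ae (Eventually.of_forall fun ζ => ?_)
      simp only
      rw [hm t ht _ (norm_nonneg _)]
      ring
    have e2 : ∀ (c x : ℂ), ‖c‖ ≤ 1 → ‖c * x‖ₑ ≤ ‖x‖ₑ := by
      intro c x hc
      rw [enorm_mul, ← ofReal_norm c]
      refine mul_le_of_le_one_left zero_le ?_
      rw [← ENNReal.ofReal_one]
      exact ENNReal.ofReal_le_ofReal hc
    rw [e1, ← h2p]
    calc ‖TM (L t) f z + (c1 * TM (Ht τ a b t) f z + c2 * TM (Ht τ a b (-t)) f z)‖ₑ ^ p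
        ≤ (‖TM (L t) f z‖ₑ + (‖TM (Ht τ a b t) f z‖ₑ + ‖TM (Ht τ a b (-t)) f z‖ₑ)) ^ p := by
          refine ENNReal.rpow_le_rpow ?_ hp0.le
          refine (enorm_add_le _ _).trans (add_le_add le_rfl ((enorm_add_le _ _).trans
            (add_le_add (e2 _ _ hc1) (e2 _ _ hc2))))
      _ ≤ 2 ^ (p - 1) * (‖TM (L t) f z‖ₑ ^ p + (‖TM (Ht τ a b t) f z‖ₑ +
          ‖TM (Ht τ a b (-t)) f z‖ₑ) ^ p) :=
          ENNReal.rpow_add_le_mul_rpow_add_rpow _ _ (by linarith)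
      _ ≤ _ := by
          refine mul_le_mul_right (add_le_add le_rfl ?_) _
          exact ENNReal.rpow_add_le_mul_rpow_add_rpow _ _ (by linarith)
  have hz : ∀ t ∈ Icc (1 : ℝ) 2, ∫⁻ z, ‖TM (m t) f z‖ₑ ^ p ≤ ENNReal.ofReal B *
      (ENNReal.ofReal K * X + ENNReal.ofReal B * (A t + A (-t))) := by
    intro t ht
    refine (lintegral_mono (hpt t ht)).trans ?_
    rw [lintegral_const_mul' _ _ ENNReal.ofReal_ne_top]
    refine mul_le_mul_right ?_ _
    rw [lintegral_add_left ((TM_meas1 (hMul t ht).meas hf).enorm.pow_const p),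
      lintegral_const_mul' _ _ ENNReal.ofReal_ne_top,
      lintegral_add_left ((hHz t).enorm.pow_const p)]
    exact add_le_add (hL t ht) le_rfl
  have hIT : Icc (1 : ℝ) 2 ⊆ T12 := by
    intro t ht
    have : |t| = t := abs_of_nonneg (by linarith [ht.1])
    unfold T12
    constructor
    · rw [this]; exact ht.1
    · rw [this]; exact ht.2
  have hA1 : ∫⁻ t in Icc (1 : ℝ) 2, A t ≤ ENNReal.ofReal CH * X :=
    (lintegral_mono_set hIT).trans hHf
  have hA2 : ∫⁻ t in Icc (1 : ℝ) 2, A (-t) ≤ ENNReal.ofReal CH * X := by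
    refine le_trans ?_ hHf
    rw [← lintegral_indicator measurableSet_Icc, ← lintegral_indicator T12_meas]
    have e3 := (Measure.measurePreserving_neg (volume : Measure ℝ)).lintegral_comp_emb
      (MeasurableEquiv.neg ℝ).measurableEmbedding (T12.indicator A)
    rw [← e3]
    refine lintegral_mono fun t => ?_
    by_cases ht : t ∈ Icc (1 : ℝ) 2
    · have ht2 : -t ∈ T12 := by
        have h1 := hIT ht
        unfold T12 at h1 ⊢
        simpa using h1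
      rw [indicator_of_mem ht, indicator_of_mem ht2]
    · rw [indicator_of_notMem ht]
      exact zero_le
  calc ∫⁻ t in Icc (1 : ℝ) 2, ∫⁻ z, ‖TM (m t) f z‖ₑ ^ p
      ≤ ∫⁻ t in Icc (1 : ℝ) 2, ENNReal.ofReal B *
      (ENNReal.ofReal K * X + ENNReal.ofReal B * (A t + A (-t))) :=
        setLIntegral_mono' measurableSet_Icc hz
    _ = ENNReal.ofReal B * (ENNReal.ofReal K * X + ENNReal.ofReal B *
        ((∫⁻ t in Icc (1 : ℝ) 2, A t) + ∫⁻ t in Icc (1 : ℝ) 2, A (-t))) := by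
        have e4 : ∫⁻ t in Icc (1 : ℝ) 2, ENNReal.ofReal B * (A t + A (-t)) =
            ENNReal.ofReal B * ((∫⁻ t in Icc (1 : ℝ) 2, A t) +
              ∫⁻ t in Icc (1 : ℝ) 2, A (-t)) := by
          rw [lintegral_const_mul' _ _ ENNReal.ofReal_ne_top, lintegral_add_left hAm]
        rw [lintegral_const_mul' _ _ ENNReal.ofReal_ne_top, lintegral_add_left measurable_const,
          e4, lintegral_const, Measure.restrict_apply_univ, Real.volume_Icc]
        norm_num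
    _ ≤ ENNReal.ofReal B * (ENNReal.ofReal K * X + ENNReal.ofReal B *
        (ENNReal.ofReal CH * X + ENNReal.ofReal CH * X)) := by
        gcongr
    _ = _ := by
        rw [ENNReal.ofReal_mul hB0.le, ENNReal.ofReal_add hK.le (by positivity),
          ENNReal.ofReal_mul hB0.le, ENNReal.ofReal_mul (by norm_num)]
        have : ENNReal.ofReal 2 = 2 := by norm_num
        rw [this]
        ring

theorem one_W' (W : Type*) [NormedAddCommGroup W] [InnerProductSpace ℝ W]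
    [FiniteDimensional ℝ W] [MeasurableSpace W] [BorelSpace W] [Nontrivial W] {s E p C0 : ℝ}
    (hp : 2 < p) (hs : 0 < s) (hE : E < s * p) (hC0 : 0 < C0) :
    ∃ C : ℝ, 0 < C ∧ ∀ f : W → ℂ, Integrable f → Measurable f →
    PieceC W p E C0 f → ∀ τ : ℝ, 0 < τ →
    (∫⁻ t in Icc (1 : ℝ) 2, ∫⁻ z, ‖TM (fun ρ => ((mc s τ t ρ : ℝ) : ℂ)) f z‖ₑ ^ p ≤
      ENNReal.ofReal C * ∫⁻ z, ‖f z‖ₑ ^ p) ∧
    (∫⁻ t in Icc (1 : ℝ) 2, ∫⁻ z, ‖TM (fun ρ => ((ms s τ t ρ : ℝ) : ℂ)) f z‖ₑ ^ p ≤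
      ENNReal.ofReal C * ∫⁻ z, ‖f z‖ₑ ^ p) := by
  obtain ⟨KL, hKL, hlow⟩ := low_all W s (p := p) (by linarith)
  obtain ⟨K1, hK1, hP1⟩ := PieceC.toP W (-(s / 2)) 0 (p := p) (by linarith)
  obtain ⟨K2, hK2, hP2⟩ := PieceC.toP W ((1 - s) / 2) (-(1 / 2)) (p := p) (by linarith)
  obtain ⟨C1, hC1, h1⟩ := three' W (a := -(s / 2)) (b := 0) (s := s) 1 hp (by ring) hs.le hE
    (C0 := K1 * C0) (by positivity) hKL
  obtain ⟨C2, hC2, h2⟩ := three' W (a := (1 - s) / 2) (b := -(1 / 2)) (s := s) 3 hp (by ring)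
    hs.le hE (C0 := K2 * C0) (by positivity) hKL
  refine ⟨C1 + C2, by positivity, ?_⟩
  intro f hf hfm hpiece τ hτ
  have hexp : ∀ ρ : ℝ, Real.exp (-(τ * ρ ^ 2)) ≤ 1 := by
    intro ρ
    rw [Real.exp_le_one_iff]
    have : 0 ≤ τ * ρ ^ 2 := by positivity
    linarith
  have hthz : ∀ ρ : ℝ, 2 < ρ → th (ρ ^ 2) = 0 := fun ρ hρ => th_zero (by nlinarith)
  constructor
  · refine (h1 f hf (hP1 E C0 f hC0 hf hpiece) τ hτ (fun t ρ => ((mc s τ t ρ : ℝ) : ℂ))
      (fun t ρ => ((mc s τ t ρ * th (ρ ^ 2) : ℝ) : ℂ)) (1 / 2) (1 / 2) (by norm_num) (by norm_num)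
      ?_ (fun t ht => (hlow τ hτ t ht f hfm hf).1) ?_).trans ?_
    · intro t _
      refine ⟨?_, ?_, ?_⟩
      · exact Complex.measurable_ofReal.comp ((measurable_mc s τ t).mul
          (th_meas.comp (by fun_prop)))
      · intro ρ _
        rw [Complex.norm_real, Real.norm_eq_abs, abs_mul, abs_of_nonneg (th_nonneg _)]
        have h3 := mc_le s τ t ρ hs
        have h4 := hexp ρ
        calc |mc s τ t ρ| * th (ρ ^ 2) ≤ 1 * 1 :=
              mul_le_mul (by linarith) (th_le_one _) (th_nonneg _) zero_le_one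
          _ = 1 := one_mul _
      · intro ρ hρ
        rw [hthz ρ hρ]
        simp
    · intro t _ ρ _
      unfold Ht wS
      rw [neg_mul, Real.rpow_zero, mul_one]
      have h5 := e_cos (t * ρ)
      have h6 : ((mc s τ t ρ : ℝ) : ℂ) = ((Real.exp (-(τ * ρ ^ 2)) *
          (1 + 4 * Real.pi ^ 2 * ρ ^ 2) ^ (-(s / 2)) : ℝ) : ℂ) *
          ((Real.cos (2 * Real.pi * (t * ρ)) : ℝ) : ℂ) := by
        unfold mc
        rw [← Complex.ofReal_mul]
        congr 1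
        ring
      rw [Complex.ofReal_mul, h6, Complex.ofReal_mul (_ * _) (1 - th (ρ ^ 2))]
      have h7 : ((Real.cos (2 * Real.pi * (t * ρ)) : ℝ) : ℂ) =
          1 / 2 * (e (t * ρ) + e (-(t * ρ))) := by
        rw [h5]
        ring
      rw [h7]
      push_cast
      ring
    · refine mul_le_mul_left (ENNReal.ofReal_le_ofReal ?_) _
      linarith
  · have hpi := Real.pi_pos
    have hpi3 := Real.pi_gt_three
    have hcn : ‖(1 / (2 * Complex.I * (2 * (Real.pi : ℂ))) : ℂ)‖ ≤ 1 := by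
      rw [norm_div, norm_mul, norm_mul, norm_mul, Complex.norm_I, Complex.norm_real,
        Real.norm_of_nonneg hpi.le]
      simp only [norm_one, Complex.norm_ofNat]
      rw [div_le_one (by positivity)]
      nlinarith
    refine (h2 f hf (hP2 E C0 f hC0 hf hpiece) τ hτ (fun t ρ => ((ms s τ t ρ : ℝ) : ℂ))
      (fun t ρ => ((ms s τ t ρ * th (ρ ^ 2) : ℝ) : ℂ)) (1 / (2 * Complex.I * (2 * (Real.pi : ℂ))))
      (-(1 / (2 * Complex.I * (2 * (Real.pi : ℂ))))) hcn (by rw [norm_neg]; exact hcn)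
      ?_ (fun t ht => (hlow τ hτ t ht f hfm hf).2) ?_).trans ?_
    · intro t ht
      have ht2 : |t| ≤ 2 := by
        rw [abs_of_nonneg (by linarith [ht.1])]
        exact ht.2
      refine ⟨?_, ?_, ?_⟩
      · exact Complex.measurable_ofReal.comp ((measurable_ms s τ t).mul
          (th_meas.comp (by fun_prop)))
      · intro ρ hρ
        rw [Complex.norm_real, Real.norm_eq_abs, abs_mul, abs_of_nonneg (th_nonneg _)]
        have h3 := ms_le s τ t ρ hs ht2 hρ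
        have h4 := hexp ρ
        calc |ms s τ t ρ| * th (ρ ^ 2) ≤ 3 * 1 :=
              mul_le_mul (by linarith) (th_le_one _) (th_nonneg _) (by norm_num)
          _ = 3 := mul_one _
      · intro ρ hρ
        rw [hthz ρ hρ]
        simp
    · intro t _ ρ hρ0
      unfold Ht wS
      rw [neg_mul]
      rcases le_or_gt (ρ ^ 2) 1 with h | h
      · rw [th_one h]
        simp
      have hρ1 : 0 < ρ := by
        rcases hρ0.eq_or_lt with h0 | h0
        · rw [← h0] at h; norm_num at h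
        · exact h0
      have h8 : (0 + 1 * ρ ^ 2) ^ (-(1 / 2) : ℝ) = ρ⁻¹ := by
        rw [zero_add, one_mul, ← Real.rpow_natCast ρ 2, ← Real.rpow_mul hρ1.le,
          ← Real.rpow_neg_one]
        congr 1
        norm_num
      rw [h8]
      have h5 := e_sin (t * ρ)
      have h6 : ((ms s τ t ρ : ℝ) : ℂ) = ((Real.exp (-(τ * ρ ^ 2)) *
          (1 + 4 * Real.pi ^ 2 * ρ ^ 2) ^ ((1 - s) / 2) * ρ⁻¹ : ℝ) : ℂ) *
          (((Real.sin (2 * Real.pi * (t * ρ)) : ℝ) : ℂ) / (2 * (Real.pi : ℂ))) := by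
        unfold ms
        have h9 : (((Real.sin (2 * Real.pi * (t * ρ)) : ℝ) : ℂ) / (2 * (Real.pi : ℂ))) =
            ((Real.sin (2 * Real.pi * (t * ρ)) / (2 * Real.pi) : ℝ) : ℂ) := by
          push_cast
          rfl
        rw [h9, ← Complex.ofReal_mul]
        congr 1
        field_simp
      rw [Complex.ofReal_mul, h6, Complex.ofReal_mul (_ * _ * _) (1 - th (ρ ^ 2))]
      have hI := Complex.I_ne_zero
      have hpic : (Real.pi : ℂ) ≠ 0 := by exact_mod_cast hpi.ne'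
      have h7 : ((Real.sin (2 * Real.pi * (t * ρ)) : ℝ) : ℂ) =
          1 / (2 * Complex.I) * (e (t * ρ) - e (-(t * ρ))) := by
        rw [h5]
        field_simp
      rw [h7]
      push_cast
      field_simp
      ring
    · refine mul_le_mul_left (ENNReal.ofReal_le_ofReal ?_) _
      linarith

end Pool.Agent.Helper66K9.LSH
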