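import Pool.Agent.Helper66K9.LSH.CS
import Pool.Agent.Helper66K9.LS.Sum1
set_option autoImplicit false

/-! # Multipliers with integrable kernels -/

namespace Pool.Agent.Helper66K9.LSH

open MeasureTheory Set Filter
open scoped ENNReal FourierTransform RealInnerProductSpace Topology
open Pool.Agent.TH280.LS (e norm_e e_add measurable_e continuous_e plancherel e_conj)
open Pool.Agent.Helper66K9.LS (F_eq cont_F gauss_W)

variable {W : Type*} [NormedAddCommGroup W] [InnerProductSpace ℝ W] [FiniteDimensional ℝ W]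
  [MeasurableSpace W] [BorelSpace W]

theorem inv_cont {h : W → ℂ} (hi : Integrable h) :
    Continuous (fun z : W => ∫ ζ : W, e (⟪z, ζ⟫ : ℝ) * h ζ) := by
  have h1 : (fun z : W => ∫ ζ : W, e (⟪z, ζ⟫ : ℝ) * h ζ) = fun z => 𝓕 h (-z) := by
    funext z
    rw [F_eq]
    refine integral_congr_ae (Eventually.of_forall fun ζ => ?_)
    simp only
    rw [inner_neg_right, neg_neg, real_inner_comm]
  rw [h1]
  exact (cont_F hi).comp continuous_neg

theorem opB {κ : W → ℂ} (hκc : Continuous κ) (hκ : Integrable κ) {a : ℝ}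
    (ha : ∫⁻ v, ‖κ v‖ₑ ≤ ENNReal.ofReal a) (lam : ℝ) {h : W → ℂ} (hi : Integrable h) {p : ℝ}
    (hp : 1 < p) {g : W → ℂ}
    (hg : ∀ ζ, g ζ = (∫ v : W, e (-(⟪v, lam • ζ⟫ : ℝ)) * κ v) * h ζ) :
    ∫⁻ z, ‖∫ ζ : W, e (⟪z, ζ⟫ : ℝ) * g ζ‖ₑ ^ p ≤
      ENNReal.ofReal a ^ p * ∫⁻ z, ‖∫ ζ : W, e (⟪z, ζ⟫ : ℝ) * h ζ‖ₑ ^ p := by
  set H : W → ℂ := fun z => ∫ ζ : W, e (⟪z, ζ⟫ : ℝ) * h ζ with hH
  have hHm : Measurable H := (inv_cont hi).measurable
  have hrep : ∀ z, ∫ ζ : W, e (⟪z, ζ⟫ : ℝ) * g ζ = ∫ v : W, κ v * H (z - lam • v) := by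
    intro z
    have h1 : ∀ ζ : W, e (⟪z, ζ⟫ : ℝ) * g ζ =
        ∫ v : W, κ v * (e (⟪z - lam • v, ζ⟫ : ℝ) * h ζ) := by
      intro ζ
      rw [hg, ← integral_mul_const, ← integral_const_mul]
      refine integral_congr_ae (Eventually.of_forall fun v => ?_)
      simp only
      have h3 : e (⟪z - lam • v, ζ⟫ : ℝ) = e (⟪z, ζ⟫ : ℝ) * e (-(⟪v, lam • ζ⟫ : ℝ)) := by
        rw [← e_add, inner_sub_left, real_inner_smul_left, real_inner_smul_right, sub_eq_add_neg]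
      rw [h3]
      ring
    simp_rw [h1]
    rw [integral_integral_swap]
    · refine integral_congr_ae (Eventually.of_forall fun v => ?_)
      simp only
      rw [integral_const_mul]
    · have h2 : Integrable (fun q : W × W => h q.1 * κ q.2) := hi.mul_prod hκ
      have h3 : (Function.uncurry fun (ζ v : W) => κ v * (e (⟪z - lam • v, ζ⟫ : ℝ) * h ζ)) =
          fun q : W × W => e (⟪z - lam • q.2, q.1⟫ : ℝ) * (h q.1 * κ q.2) := by
        funext q
        simp only [Function.uncurry]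
        ring
      rw [h3]
      refine h2.bdd_mul (c := 1) ?_ ?_
      · exact (measurable_e.comp (by fun_prop)).aestronglyMeasurable
      · exact Eventually.of_forall fun ζ => (norm_e _).le
  refine le_trans ?_ (young_p (κ := fun v => ‖κ v‖ₑ) (g := fun z => ‖H z‖ₑ)
    hκc.measurable.enorm hHm.enorm hp lam ha ENNReal.ofReal_ne_top)
  refine lintegral_mono fun z => ENNReal.rpow_le_rpow ?_ (by linarith)
  rw [hrep]
  refine (enorm_integral_le_lintegral_enorm _).trans (le_of_eq ?_)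
  refine lintegral_congr fun v => ?_
  rw [enorm_mul]

theorem heat_ker (W : Type*) [NormedAddCommGroup W] [InnerProductSpace ℝ W]
    [FiniteDimensional ℝ W] [MeasurableSpace W] [BorelSpace W] {τ : ℝ} (hτ : 0 < τ) :
    ∃ κ : W → ℂ, Continuous κ ∧ Integrable κ ∧
      ∫⁻ v, ‖κ v‖ₑ ≤ ENNReal.ofReal 1 ∧ ∀ ζ : W, ((Real.exp (-(τ * ‖ζ‖ ^ 2)) : ℝ) : ℂ) =
        ∫ v : W, e (-(⟪v, ζ⟫ : ℝ)) * κ v := by
  have hpi := Real.pi_pos
  set b : ℝ := Real.pi ^ 2 / τ with hb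
  have hb0 : 0 < b := by positivity
  set c : ℂ := ((Real.pi : ℂ) / (b : ℂ)) ^ ((Module.finrank ℝ W : ℂ) / 2) with hc
  have hbc : (b : ℂ) ≠ 0 := by exact_mod_cast hb0.ne'
  have hτc : (τ : ℂ) ≠ 0 := by exact_mod_cast hτ.ne'
  have hpic : (Real.pi : ℂ) ≠ 0 := by exact_mod_cast hpi.ne'
  have hc0 : c ≠ 0 := by
    rw [hc, Ne, Complex.cpow_eq_zero_iff]
    intro h
    exact (div_ne_zero hpic hbc) h.1
  have hF : ∀ w : W, 𝓕 (fun v : W => ((Real.exp (-(b * ‖v‖ ^ 2)) : ℝ) : ℂ)) w =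
      c * ((Real.exp (-(τ * ‖w‖ ^ 2)) : ℝ) : ℂ) := by
    intro w
    have h1 := fourier_gaussian_innerProductSpace (V := W) (b := (b : ℂ)) (by simpa using hb0) w
    have h2 : (fun v : W => Complex.exp (-(b : ℂ) * (‖v‖ : ℂ) ^ 2)) =
        fun v : W => ((Real.exp (-(b * ‖v‖ ^ 2)) : ℝ) : ℂ) := by
      funext v
      push_cast
      congr 1
      ring
    rw [h2] at h1
    rw [h1]
    congr 1
    push_cast
    congr 1
    rw [hb]
    push_cast
    field_simp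
  set I : ℝ := ∫ v : W, Real.exp (-(b * ‖v‖ ^ 2)) with hI
  have hIc : (I : ℂ) = c := by
    have h1 := hF 0
    rw [F_eq] at h1
    simp only [inner_zero_right, neg_zero] at h1
    have h2 : e 0 = 1 := by simp [e]
    rw [h2] at h1
    simp only [one_mul, norm_zero] at h1
    rw [integral_complex_ofReal] at h1
    rw [hI]
    refine Eq.trans ?_ (h1.trans ?_)
    · rfl
    · norm_num
  have hI0 : I ≠ 0 := by
    intro h
    rw [h] at hIc
    exact hc0 (by rw [← hIc]; simp)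
  have hIp : 0 < I := lt_of_le_of_ne (integral_nonneg fun v => (Real.exp_pos _).le) (Ne.symm hI0)
  have hgi : Integrable (fun v : W => I⁻¹ * Real.exp (-(b * ‖v‖ ^ 2))) :=
    (gauss_W hb0).const_mul _
  refine ⟨fun v => ((I⁻¹ * Real.exp (-(b * ‖v‖ ^ 2)) : ℝ) : ℂ), ?_, hgi.ofReal, ?_, ?_⟩
  · exact Complex.continuous_ofReal.comp (by fun_prop)
  · have h1 : ∀ v : W, ‖((I⁻¹ * Real.exp (-(b * ‖v‖ ^ 2)) : ℝ) : ℂ)‖ₑ =
        ENNReal.ofReal (I⁻¹ * Real.exp (-(b * ‖v‖ ^ 2))) := by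
      intro v
      rw [← ofReal_norm, Complex.norm_real, Real.norm_of_nonneg (by positivity)]
    simp only [h1]
    rw [← ofReal_integral_eq_lintegral_ofReal hgi (Eventually.of_forall fun v => by positivity),
      integral_const_mul, inv_mul_cancel₀ hI0]
  · intro ζ
    have h1 := hF ζ
    rw [F_eq] at h1
    have h2 : ∫ v : W, e (-(⟪v, ζ⟫ : ℝ)) * ((I⁻¹ * Real.exp (-(b * ‖v‖ ^ 2)) : ℝ) : ℂ) =
        (I : ℂ)⁻¹ * ∫ v : W, e (-(⟪v, ζ⟫ : ℝ)) * ((Real.exp (-(b * ‖v‖ ^ 2)) : ℝ) : ℂ) := by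
      rw [← integral_const_mul]
      refine integral_congr_ae (Eventually.of_forall fun v => ?_)
      simp only
      push_cast
      ring
    rw [h2, h1, hIc, inv_mul_cancel_left₀ hc0]

end Pool.Agent.Helper66K9.LSH
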