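import Pool.Agent.Helper66K9.LSH.Cell
set_option autoImplicit false

/-! # Summation over the cells -/

namespace Pool.Agent.Helper66K9.LSH

open MeasureTheory Set Filter
open scoped ENNReal FourierTransform RealInnerProductSpace Topology
open Pool.Agent.TH280.LS
open Pool.Agent.Helper66K9.LS (om om_meas om_le om_pos om_mul_le mI TM TM_meas TM_L2 Mt Mt_mul
  Mt_meas Sym ae_pi_pos ae_pi_all T12 T12_meas T12_sub TM_add Mul NCb TM_Lp Kt TM_kernel chi
  chi_smooth chi_zero Psi Psi_Sym wS)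
open Pool.Agent.Helper66K9.LSG

variable {k ℓ n : ℕ}

theorem count_near (c : Ix k n) : ∑' m : Ix k n, {m | near c m}.indicator (fun _ => (1 : ℝ≥0∞)) m ≤
    9 ^ (k + n) := by
  classical
  set S : Finset (Ix k n) := (Fintype.piFinset fun i => Finset.Icc (c.1 i - 4) (c.1 i + 4)) ×ˢ
    (Fintype.piFinset fun j => Finset.Icc (c.2 j - 4) (c.2 j + 4)) with hS
  have hmem : ∀ m, near c m → m ∈ S := by
    intro m hm
    rw [hS, Finset.mem_product, Fintype.mem_piFinset, Fintype.mem_piFinset]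
    refine ⟨fun i => ?_, fun j => ?_⟩
    · have := hm.1 i
      rw [abs_le] at this
      rw [Finset.mem_Icc]
      omega
    · have := hm.2 j
      rw [abs_le] at this
      rw [Finset.mem_Icc]
      omega
  have hcard : S.card = 9 ^ (k + n) := by
    rw [hS, Finset.card_product, Fintype.card_piFinset, Fintype.card_piFinset]
    have h1 : ∀ x : ℤ, (Finset.Icc (x - 4) (x + 4)).card = 9 := by
      intro x
      rw [Int.card_Icc]
      have : x + 4 + 1 - (x - 4) = 9 := by ring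
      rw [this]
      rfl
    simp only [h1, Finset.prod_const, Finset.card_univ, Fintype.card_fin]
    rw [pow_add]
  rw [tsum_eq_sum (s := S)]
  · calc ∑ m ∈ S, {m | near c m}.indicator (fun _ => (1 : ℝ≥0∞)) m ≤ ∑ _m ∈ S, (1 : ℝ≥0∞) := by
          refine Finset.sum_le_sum fun m _ => ?_
          rw [Set.indicator_apply]
          split_ifs
          · exact le_rfl
          · exact zero_le_one
      _ = 9 ^ (k + n) := by
          rw [Finset.sum_const, hcard, nsmul_eq_mul, mul_one]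
          push_cast
          rfl
  · intro m hm
    have h1 : m ∉ {m | near c m} := fun h => hm (hmem m h)
    rw [Set.indicator_of_notMem h1]

theorem sum_near {f : Wm k ℓ n → ℂ} (hf : Measurable f) {p : ℝ} (hp : 0 < p) :
    ∑' m : Ix k n, ∫⁻ z, ‖fst' f m z‖ₑ ^ p ≤ 9 ^ (k + n) * ∫⁻ z, ‖f z‖ₑ ^ p := by
  have hm : ∀ m : Ix k n, Measurable (fst' f m) := fun m => hf.indicator (near_meas m)
  rw [← lintegral_tsum fun m => ((hm m).enorm.pow_const p).aemeasurable,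
    ← lintegral_const_mul' _ _ (by finiteness)]
  refine lintegral_mono fun z => ?_
  have h1 : ∀ m : Ix k n, ‖fst' f m z‖ₑ ^ p =
      {m | near (cel z) m}.indicator (fun _ => (1 : ℝ≥0∞)) m * ‖f z‖ₑ ^ p := by
    intro m
    unfold fst'
    by_cases hm : near (cel z) m
    · rw [indicator_of_mem (show z ∈ {w | near (cel w) m} from hm),
        indicator_of_mem (show m ∈ {m | near (cel z) m} from hm), one_mul]
    · rw [indicator_of_notMem (show z ∉ {w | near (cel w) m} from hm),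
        indicator_of_notMem (show m ∉ {m | near (cel z) m} from hm), zero_mul]
      simp [hp]
  simp only [h1]
  rw [ENNReal.tsum_mul_right]
  exact mul_le_mul_left (count_near _) _

theorem part_cells (g : Wm k ℓ n → ℝ≥0∞) {S : Set (Wm k ℓ n)} (hS : MeasurableSet S) :
    ∫⁻ z in S, g z = ∑' m : Ix k n, ∫⁻ z in S ∩ {z | cel z = m}, g z := by
  rw [← lintegral_iUnion]
  · congr 2
    ext z
    simp
  · exact fun m => hS.inter (cel_meas (measurableSet_singleton m))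
  · intro m m' hm
    refine Set.disjoint_left.2 fun z hz hz' => hm ?_
    have h1 : cel z = m := hz.2
    have h2 : cel z = m' := hz'.2
    rw [← h1, ← h2]

/-- far interactions only see the tail of the kernel -/
theorem split_pt {N A : ℝ} {Ψ : ℝ → ℝ} (hN : 1 ≤ N) (h : Sym N A Ψ) (t : ℝ)
    {f : Wm k ℓ n → ℂ} (hf : Integrable f) (z : Wm k ℓ n) :
    ‖TM (Mt Ψ t) f z‖ₑ ≤ ‖TM (Mt Ψ t) (fst' f (cel z)) z‖ₑ +
      ∫⁻ v, {v : Wm k ℓ n | 4 ≤ ‖v‖}.indicator (fun v => ‖Kt (Wm k ℓ n) Ψ t v‖ₑ) v *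
        ‖f (z - (1 : ℝ) • v)‖ₑ := by
  set S : Set (Wm k ℓ n) := {w | near (cel w) (cel z)} with hS
  have hSm : MeasurableSet S := near_meas (cel z)
  set r : Wm k ℓ n → ℂ := Sᶜ.indicator f with hr
  have hi1 : Integrable (fst' f (cel z)) := hf.indicator hSm
  have hi2 : Integrable r := hf.indicator hSm.compl
  have hsum : f = fun w => fst' f (cel z) w + r w := by
    funext w
    simp only [hr, fst']
    rw [indicator_self_add_compl_apply]
  have h1 : TM (Mt Ψ t) f z = TM (Mt Ψ t) (fst' f (cel z)) z + TM (Mt Ψ t) r z := by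
    conv_lhs => rw [hsum]
    exact TM_add (Mt_mul hN h t) hi1 hi2 z
  rw [h1]
  refine (enorm_add_le _ _).trans (add_le_add le_rfl ?_)
  have hker : TM (Mt Ψ t) r z = ∫ w : Wm k ℓ n, Kt (Wm k ℓ n) Ψ t (z - w) * r w :=
    TM_kernel (Mt_mul hN h t) hi2 z
  rw [hker]
  set F : Wm k ℓ n → ℝ≥0∞ := fun v =>
    {v : Wm k ℓ n | 4 ≤ ‖v‖}.indicator (fun v => ‖Kt (Wm k ℓ n) Ψ t v‖ₑ) v *
        ‖f (z - (1 : ℝ) • v)‖ₑ with hF
  calc ‖∫ w : Wm k ℓ n, Kt (Wm k ℓ n) Ψ t (z - w) * r w‖ₑ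
      ≤ ∫⁻ w : Wm k ℓ n, ‖Kt (Wm k ℓ n) Ψ t (z - w) * r w‖ₑ :=
        enorm_integral_le_lintegral_enorm _
    _ ≤ ∫⁻ w : Wm k ℓ n, F (z - w) := by
        refine lintegral_mono fun w => ?_
        rw [enorm_mul]
        simp only [hF, hr]
        by_cases hw : w ∈ S
        · rw [indicator_of_notMem (by simpa using hw), enorm_zero, mul_zero]
          exact zero_le
        · rw [indicator_of_mem (by simpa using hw)]
          have h4 : z - w ∈ {v : Wm k ℓ n | 4 ≤ ‖v‖} := by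
            by_contra hc
            apply hw
            have h5 : ‖z - w‖ < 4 := not_le.1 hc
            rw [norm_sub_rev] at h5
            exact near_of_dist h5
          rw [indicator_of_mem h4, one_smul, sub_sub_cancel]
    _ = ∫⁻ v, F v := lintegral_sub_left_eq_self F z

/-- the dyadic multipliers -/
noncomputable def chiN (N σ : ℝ) : ℝ := chi (σ / N ^ 2)

theorem Bmp_chi : Bmp chi := by
  refine ⟨chi_smooth, fun σ hσ => ?_⟩
  constructor
  · by_contra hc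
    exact hσ (chi_zero (Or.inl (not_le.1 hc).le))
  · by_contra hc
    exact hσ (chi_zero (Or.inr (not_le.1 hc).le))

theorem chiN_Sym : ∃ K : ℝ, 0 < K ∧ ∀ N : ℝ, 1 ≤ N → Sym N K (chiN N) := by
  obtain ⟨K, hK, h⟩ := Psi_Sym 0 0
  refine ⟨K, hK, fun N hN => ?_⟩
  have h1 := h 0 N le_rfl hN
  have h2 : Psi 0 0 0 N = chiN N := by
    funext σ
    unfold Psi wS chiN
    simp
  rw [h2] at h1
  simpa using h1

theorem piece_H (hDUAL : S_DUAL) (hW : S_W) (k ℓ n : ℕ) (hk : 1 ≤ k) (hℓ : 1 ≤ ℓ)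
    (p : ℝ) (hp : 2 < p) (ε : ℝ) (hε : 0 < ε) : ∃ C : ℝ, 0 < C ∧
    ∀ N : ℝ, 1 ≤ N → ∀ f : Wm k ℓ n → ℂ, ClsH k ℓ n f →
    ∫⁻ t in T12, ∫⁻ z, ‖TM (Mt (chiN N) t) f z‖ₑ ^ p ≤
      ENNReal.ofReal (C * N ^ (((k * (2 * ℓ + 1) + n : ℝ) - 1) * (p / 2 - 1) -
        k * min (ℓ * (p - 2)) (1 / k) + ε)) * ∫⁻ z, ‖f z‖ₑ ^ p := by
  have hk0 : (0 : ℝ) < k := by exact_mod_cast hk
  have hk1 : (1 : ℝ) ≤ k := by exact_mod_cast hk
  have hn0 : (0 : ℝ) ≤ n := Nat.cast_nonneg n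
  have hℓ0 : (0 : ℝ) < ℓ := by exact_mod_cast hℓ
  have hp0 : 0 < p := by linarith
  obtain ⟨δ, hδ, hab⟩ := absorb' k ℓ n hp.le
  obtain ⟨C1, hC1, hcell⟩ := cell_est hDUAL hW k ℓ n hk hℓ p hp ε hε δ hδ
  obtain ⟨K, hK, hSym⟩ := chiN_Sym
  obtain ⟨CT, hCT, htail⟩ := tail_N (Wm k ℓ n) Bmp_chi
  set E : ℝ := ((k * (2 * ℓ + 1) + n : ℝ) - 1) * (p / 2 - 1) -
        k * min (ℓ * (p - 2)) (1 / k) + ε with hE
  have hE0 : 0 ≤ E := by
    have h1 : k * min (ℓ * (p - 2)) (1 / k) ≤ k * (ℓ * (p - 2)) :=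
      mul_le_mul_of_nonneg_left (min_le_left _ _) hk0.le
    have h2 : ((k * (2 * ℓ + 1) + n : ℝ) - 1) * (p / 2 - 1) - k * (ℓ * (p - 2)) =
        (k + n - 1) * (p / 2 - 1) := by ring
    have h3 : 0 ≤ (k + n - 1 : ℝ) * (p / 2 - 1) := mul_nonneg (by linarith) (by linarith)
    rw [hE]
    linarith
  set Q : ℝ := 2 ^ (p - 1) with hQ
  have hQ0 : 0 < Q := by positivity
  have h2p : (2 : ℝ≥0∞) ^ (p - 1) = ENNReal.ofReal Q := by
    rw [hQ, ← ENNReal.ofReal_rpow_of_pos (by norm_num)]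
    norm_num
  refine ⟨2 * Q * (C1 * K ^ p * 9 ^ (k + n) + 4 * CT ^ p), by positivity, ?_⟩
  intro N hN f hf
  have hN0 : 0 < N := by linarith
  have hS := hSym N hN
  set Ψ : ℝ → ℝ := chiN N with hΨ
  set X : ℝ≥0∞ := ∫⁻ z, ‖f z‖ₑ ^ p with hX
  set G : Set (Wm k ℓ n) := goodm k ℓ n (δ / N) with hG
  have hGm : MeasurableSet G := goodm_meas k ℓ n _
  have hKm : ∀ t, Measurable (Kt (Wm k ℓ n) Ψ t) := fun t => Kt_meas hN hS t
  have h4m : MeasurableSet {v : Wm k ℓ n | 4 ≤ ‖v‖} :=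
    measurableSet_le measurable_const measurable_norm
  set u2 : ℝ → Wm k ℓ n → ℝ≥0∞ := fun t z =>
    ∫⁻ v, {v : Wm k ℓ n | 4 ≤ ‖v‖}.indicator (fun v => ‖Kt (Wm k ℓ n) Ψ t v‖ₑ) v *
        ‖f (z - (1 : ℝ) • v)‖ₑ with hu2
  have hu2m : ∀ t, Measurable (u2 t) := by
    intro t
    have h1 : Measurable (fun q : Wm k ℓ n × Wm k ℓ n =>
        {v : Wm k ℓ n | 4 ≤ ‖v‖}.indicator (fun v => ‖Kt (Wm k ℓ n) Ψ t v‖ₑ) q.2 *
        ‖f (q.1 - (1 : ℝ) • q.2)‖ₑ) := by
      refine Measurable.mul ?_ (hf.meas.comp (by fun_prop)).enorm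
      exact ((hKm t).enorm.indicator h4m).comp measurable_snd
    exact h1.lintegral_prod_right'
  have hu2i : ∀ t ∈ T12, ∫⁻ z, u2 t z ^ p ≤ ENNReal.ofReal (CT ^ p) * X := by
    intro t ht
    have h1 := young_p (κ := {v : Wm k ℓ n | 4 ≤ ‖v‖}.indicator
      (fun v => ‖Kt (Wm k ℓ n) Ψ t v‖ₑ)) (g := fun z => ‖f z‖ₑ) ((hKm t).enorm.indicator h4m)
      hf.meas.enorm (p := p) (by linarith) 1 (a := ENNReal.ofReal CT) (by
        rw [lintegral_indicator h4m]
        exact htail N t hN ht.1 ht.2) ENNReal.ofReal_ne_top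
    rw [ENNReal.ofReal_rpow_of_pos hCT] at h1
    exact h1
  have hTM2 : ∀ {g : Wm k ℓ n → ℂ}, Integrable g →
      Measurable (fun q : ℝ × Wm k ℓ n => TM (Mt Ψ q.1) g q.2) := fun hg => TM_meas (Mt_meas hS) hg
  -- fixed time
  have ht1 : ∀ t ∈ T12, ∫⁻ z, ‖TM (Mt Ψ t) f z‖ₑ ^ p ≤ ENNReal.ofReal (2 * Q) *
      ((∑' m : Ix k n, ∫⁻ z in G ∩ {z | cel z = m}, ‖TM (Mt Ψ t) (fst' f m) z‖ₑ ^ p) +
        ENNReal.ofReal (CT ^ p) * X) := by
    intro t ht
    have h1 := hab K (2 * N) (Mt Ψ t) (Mt_mul hN hS t) N hN0 le_rfl f hf.int hf.sq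
    calc ∫⁻ z, ‖TM (Mt Ψ t) f z‖ₑ ^ p ≤ 2 * ∫⁻ z in G, ‖TM (Mt Ψ t) f z‖ₑ ^ p := h1
      _ ≤ 2 * ∫⁻ z in G, ENNReal.ofReal Q * (‖TM (Mt Ψ t) (fst' f (cel z)) z‖ₑ ^ p +
          u2 t z ^ p) := by
          refine mul_le_mul_right (lintegral_mono fun z => ?_) _
          rw [← h2p]
          exact (ENNReal.rpow_le_rpow (split_pt hN hS t hf.int z) hp0.le).trans
            (ENNReal.rpow_add_le_mul_rpow_add_rpow _ _ (by linarith))
      _ = 2 * (ENNReal.ofReal Q * ((∫⁻ z in G, ‖TM (Mt Ψ t) (fst' f (cel z)) z‖ₑ ^ p) +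
          ∫⁻ z in G, u2 t z ^ p)) := by
          rw [lintegral_const_mul' _ _ ENNReal.ofReal_ne_top,
            lintegral_add_right _ ((hu2m t).pow_const p)]
      _ ≤ 2 * (ENNReal.ofReal Q * ((∑' m : Ix k n, ∫⁻ z in G ∩ {z | cel z = m},
          ‖TM (Mt Ψ t) (fst' f m) z‖ₑ ^ p) + ENNReal.ofReal (CT ^ p) * X)) := by
          refine mul_le_mul_right (mul_le_mul_right (add_le_add (le_of_eq ?_) ?_) _) _
          · rw [part_cells _ hGm]
            refine tsum_congr fun m => ?_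
            refine setLIntegral_congr_fun (hGm.inter (cel_meas (measurableSet_singleton m)))
              fun z hz => ?_
            have : cel z = m := hz.2
            simp only [this]
          · exact (setLIntegral_le_lintegral _ _).trans (hu2i t ht)
      _ = _ := by
          rw [← mul_assoc, ENNReal.ofReal_mul (by norm_num : (0 : ℝ) ≤ 2)]
          norm_num
  have hvol : volume T12 ≤ ENNReal.ofReal 4 := by
    refine (measure_mono T12_sub).trans (le_of_eq ?_)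
    rw [Real.volume_Icc]
    norm_num
  calc ∫⁻ t in T12, ∫⁻ z, ‖TM (Mt Ψ t) f z‖ₑ ^ p
      ≤ ∫⁻ t in T12, ENNReal.ofReal (2 * Q) *
      ((∑' m : Ix k n, ∫⁻ z in G ∩ {z | cel z = m}, ‖TM (Mt Ψ t) (fst' f m) z‖ₑ ^ p) +
        ENNReal.ofReal (CT ^ p) * X) := setLIntegral_mono' T12_meas ht1
    _ = ENNReal.ofReal (2 * Q) * ((∑' m : Ix k n, ∫⁻ t in T12,
        ∫⁻ z in G ∩ {z | cel z = m}, ‖TM (Mt Ψ t) (fst' f m) z‖ₑ ^ p) +
        ENNReal.ofReal (CT ^ p) * X * volume T12) := by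
        rw [lintegral_const_mul' _ _ ENNReal.ofReal_ne_top, lintegral_add_right _
          measurable_const, lintegral_const, Measure.restrict_apply_univ]
        congr 2
        rw [lintegral_tsum]
        intro m
        refine Measurable.aemeasurable ?_
        exact Measurable.lintegral_prod_right'
          ((hTM2 (hf.int.indicator (near_meas m))).enorm.pow_const p)
    _ ≤ ENNReal.ofReal (2 * Q) * ((∑' m : Ix k n, ENNReal.ofReal (C1 * K ^ p * N ^ E) *
        ∫⁻ z, ‖fst' f m z‖ₑ ^ p) + ENNReal.ofReal (CT ^ p) * X * ENNReal.ofReal 4) := by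
        refine mul_le_mul_right (add_le_add ?_ (mul_le_mul_right hvol _)) _
        exact ENNReal.tsum_le_tsum fun m => hcell N K Ψ hN hS f hf m
    _ ≤ ENNReal.ofReal (2 * Q) * (ENNReal.ofReal (C1 * K ^ p * N ^ E) * (9 ^ (k + n) * X) +
        ENNReal.ofReal (CT ^ p) * X * ENNReal.ofReal 4) := by
        rw [ENNReal.tsum_mul_left]
        refine mul_le_mul_right (add_le_add (mul_le_mul_right ?_ _) le_rfl) _
        exact sum_near hf.meas hp0
    _ = ENNReal.ofReal (2 * Q * (C1 * K ^ p * N ^ E * 9 ^ (k + n) + 4 * CT ^ p)) * X := by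
        have h9 : (9 : ℝ≥0∞) ^ (k + n) = ENNReal.ofReal (9 ^ (k + n)) := by
          rw [ENNReal.ofReal_pow (by norm_num)]
          norm_num
        rw [h9, ENNReal.ofReal_mul (p := 2 * Q) (by positivity), ENNReal.ofReal_add
          (by positivity) (by positivity), ENNReal.ofReal_mul (p := C1 * K ^ p * N ^ E)
          (by positivity), ENNReal.ofReal_mul (p := 4) (by norm_num)]
        ring
    _ ≤ _ := by
        refine mul_le_mul_left (ENNReal.ofReal_le_ofReal ?_) _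
        have h1 : 1 ≤ N ^ E := Real.one_le_rpow hN hE0
        have h2 : 4 * CT ^ p ≤ 4 * CT ^ p * N ^ E := le_mul_of_one_le_right (by positivity) h1
        calc 2 * Q * (C1 * K ^ p * N ^ E * 9 ^ (k + n) + 4 * CT ^ p)
            ≤ 2 * Q * (C1 * K ^ p * N ^ E * 9 ^ (k + n) + 4 * CT ^ p * N ^ E) := by gcongr
          _ = _ := by ring

end Pool.Agent.Helper66K9.LSH
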