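import Pool.Agent.Helper66K9.LSH.OpB
import Pool.Agent.Helper66K9.LSH.SumC
set_option autoImplicit false

/-! # Comparison of the frequency pieces -/

namespace Pool.Agent.Helper66K9.LSH

open MeasureTheory Set Filter
open scoped ENNReal FourierTransform RealInnerProductSpace Topology ContDiff
open Pool.Agent.TH280.LS (e norm_e e_add measurable_e continuous_e plancherel e_conj)
open Pool.Agent.Helper66K9.LS (F_eq cont_F gauss_W th th_one th_zero th_smooth chi chi_zero Psi wS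
  TM Mt Mt_mul Mul int_MF Sym)

variable {W : Type*} [NormedAddCommGroup W] [InnerProductSpace ℝ W] [FiniteDimensional ℝ W]
  [MeasurableSpace W] [BorelSpace W]

/-- the normalised symbols -/
noncomputable def Gf (W : Type*) [NormedAddCommGroup W] (a b : ℝ) (q : ℝ × W) : ℂ :=
  (((q.1 ^ 2 + 4 * Real.pi ^ 2 * ‖q.2‖ ^ 2) ^ a * (‖q.2‖ ^ 2) ^ b *
    (th (‖q.2‖ ^ 2 / 2) * (1 - th (8 * ‖q.2‖ ^ 2))) : ℝ) : ℂ)

omit [FiniteDimensional ℝ W] [MeasurableSpace W] [BorelSpace W] in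
theorem nsq_smooth : ContDiff ℝ ∞ (fun q : ℝ × W => ‖q.2‖ ^ 2) :=
  (contDiff_norm_sq ℝ).comp contDiff_snd

omit [FiniteDimensional ℝ W] [MeasurableSpace W] [BorelSpace W] in
theorem Gf_smooth (a b : ℝ) : ContDiff ℝ ∞ (Gf W a b) := by
  rw [contDiff_iff_contDiffAt]
  rintro ⟨μ, w⟩
  by_cases hw : w = 0
  · have h2 : Gf W a b =ᶠ[𝓝 (μ, w)] fun _ => 0 := by
      have h1 : ∀ᶠ q : ℝ × W in 𝓝 (μ, w), ‖q.2‖ ^ 2 < 1 / 8 :=
        (nsq_smooth (W := W)).continuous.continuousAt.eventually_lt_const (by simp [hw])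
      filter_upwards [h1] with q hq
      unfold Gf
      rw [th_one (x := 8 * ‖q.2‖ ^ 2) (by linarith)]
      simp
    exact contDiffAt_const.congr_of_eventuallyEq h2
  · have hn : 0 < ‖w‖ := norm_pos_iff.2 hw
    have hpos : 0 < ‖w‖ ^ 2 := by positivity
    have hpi := Real.pi_pos
    have h1 : ContDiffAt ℝ ∞ (fun q : ℝ × W => (q.1 ^ 2 + 4 * Real.pi ^ 2 * ‖q.2‖ ^ 2) ^ a)
        (μ, w) := by
      refine ContDiffAt.rpow_const_of_ne ?_ ?_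
      · exact ((contDiff_fst.pow 2).add (contDiff_const.mul nsq_smooth)).contDiffAt
      · have : 0 < μ ^ 2 + 4 * Real.pi ^ 2 * ‖w‖ ^ 2 := by positivity
        exact this.ne'
    have h2 : ContDiffAt ℝ ∞ (fun q : ℝ × W => (‖q.2‖ ^ 2) ^ b) (μ, w) :=
      ContDiffAt.rpow_const_of_ne nsq_smooth.contDiffAt hpos.ne'
    have h3 : ContDiff ℝ ∞ (fun q : ℝ × W => th (‖q.2‖ ^ 2 / 2) * (1 - th (8 * ‖q.2‖ ^ 2))) :=
      (th_smooth.comp (nsq_smooth.div_const 2)).mul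
        (contDiff_const.sub (th_smooth.comp (contDiff_const.mul nsq_smooth)))
    exact Complex.ofRealCLM.contDiff.contDiffAt.comp _ ((h1.mul h2).mul h3.contDiffAt)

theorem psi_id {a b τ N : ℝ} (hN : 1 ≤ N) (ζ : W) :
    ((Psi τ a b N (‖ζ‖ ^ 2) : ℝ) : ℂ) = ((N ^ (2 * (a + b)) : ℝ) : ℂ) *
      (((Real.exp (-(τ * ‖ζ‖ ^ 2)) : ℝ) : ℂ) * (Gf W a b (N⁻¹, N⁻¹ • ζ) *
        ((chiN N (‖ζ‖ ^ 2) : ℝ) : ℂ))) := by
  have hN0 : 0 < N := by linarith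
  unfold Gf Psi wS chiN
  rw [← Complex.ofReal_mul, ← Complex.ofReal_mul, ← Complex.ofReal_mul]
  congr 1
  simp only
  have hns : ‖N⁻¹ • ζ‖ ^ 2 = ‖ζ‖ ^ 2 / N ^ 2 := by
    rw [norm_smul, norm_inv, Real.norm_of_nonneg hN0.le, mul_pow, inv_pow]
    ring
  rw [hns]
  set x : ℝ := ‖ζ‖ ^ 2 / N ^ 2 with hx
  have hσ : ‖ζ‖ ^ 2 = N ^ 2 * x := by
    rw [hx]
    field_simp
  by_cases hc : chi x = 0
  · rw [hc]
    ring
  have hx1 : 1 / 4 < x := by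
    by_contra hcon
    exact hc (chi_zero (Or.inl (not_lt.1 hcon)))
  have hx2 : x < 2 := by
    by_contra hcon
    exact hc (chi_zero (Or.inr (not_lt.1 hcon)))
  have hx0 : 0 < x := by linarith
  have hpi := Real.pi_pos
  rw [th_one (x := x / 2) (by linarith), th_zero (x := 8 * x) (by linarith), hσ]
  have e1 : (1 + 4 * Real.pi ^ 2 * (N ^ 2 * x)) ^ a =
      N ^ (2 * a) * ((N⁻¹) ^ 2 + 4 * Real.pi ^ 2 * x) ^ a := by
    have h1 : 1 + 4 * Real.pi ^ 2 * (N ^ 2 * x) = N ^ (2 : ℝ) * ((N⁻¹) ^ 2 + 4 * Real.pi ^ 2 * x) := by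
      rw [Real.rpow_two]
      field_simp
    rw [h1, Real.mul_rpow (by positivity) (by positivity), ← Real.rpow_mul hN0.le]
  have e2 : (0 + 1 * (N ^ 2 * x)) ^ b = N ^ (2 * b) * x ^ b := by
    have h1 : 0 + 1 * (N ^ 2 * x) = N ^ (2 : ℝ) * x := by
      rw [Real.rpow_two]
      ring
    rw [h1, Real.mul_rpow (by positivity) hx0.le, ← Real.rpow_mul hN0.le]
  have e3 : N ^ (2 * (a + b)) = N ^ (2 * a) * N ^ (2 * b) := by
    rw [← Real.rpow_add hN0]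
    congr 1
    ring
  rw [e1, e2, e3]
  ring

theorem psi_piece (W : Type*) [NormedAddCommGroup W] [InnerProductSpace ℝ W]
    [FiniteDimensional ℝ W] [MeasurableSpace W] [BorelSpace W] (a b : ℝ) :
    ∃ K : ℝ, 0 < K ∧ ∀ (τ N p t : ℝ), 0 < τ → 1 ≤ N → 1 < p → ∀ f : W → ℂ, Integrable f →
    ∫⁻ z, ‖TM (Mt (Psi τ a b N) t) f z‖ₑ ^ p ≤
      ENNReal.ofReal ((K * N ^ (2 * (a + b))) ^ p) * ∫⁻ z, ‖TM (Mt (chiN N) t) f z‖ₑ ^ p := by
  obtain ⟨K, hK, hCS⟩ := CS (Gf W a b) (Gf_smooth a b) 2 (by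
    intro μ ζ hζ
    unfold Gf
    simp only
    rw [th_zero (x := ‖ζ‖ ^ 2 / 2) (by nlinarith)]
    simp) 1
  obtain ⟨K0, hK0, hSym⟩ := chiN_Sym
  refine ⟨K, hK, ?_⟩
  intro τ N p t hτ hN hp f hf
  have hN0 : 0 < N := by linarith
  have hp0 : 0 < p := by linarith
  have hinv : N⁻¹ ∈ Icc (-1 : ℝ) 1 := by
    have h1 : 0 < N⁻¹ := by positivity
    have h2 : N⁻¹ ≤ 1 := inv_le_one_of_one_le₀ hN
    constructor <;> linarith
  obtain ⟨κ, hκc, hκi, hκn, hκF, -⟩ := hCS N⁻¹ hinv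
  obtain ⟨γ, hγc, hγi, hγn, hγF⟩ := heat_ker W hτ
  set h0 : W → ℂ := fun ζ => Mt (chiN N) t ‖ζ‖ * 𝓕 f ζ with hh0
  have h0i : Integrable h0 := int_MF (Mt_mul hN (hSym N hN) t) hf
  have hbd : ∀ (κ : W → ℂ), Continuous κ → Integrable κ → ∀ (lam : ℝ) (h : W → ℂ), Integrable h →
      Integrable (fun ζ => (∫ v : W, e (-(⟪v, lam • ζ⟫ : ℝ)) * κ v) * h ζ) := by
    intro κ hκc hκi lam h hi
    have h1 : (fun ζ : W => ∫ v : W, e (-(⟪v, lam • ζ⟫ : ℝ)) * κ v) =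
        fun ζ => 𝓕 κ (lam • ζ) := by
      funext ζ
      rw [F_eq]
    have h2 : Continuous (fun ζ : W => ∫ v : W, e (-(⟪v, lam • ζ⟫ : ℝ)) * κ v) := by
      rw [h1]
      exact (cont_F hκi).comp (continuous_const_smul lam)
    refine hi.bdd_mul (c := ∫ v, ‖κ v‖) h2.aestronglyMeasurable
      (Eventually.of_forall fun ζ => ?_)
    refine (norm_integral_le_integral_norm _).trans (le_of_eq ?_)
    refine integral_congr_ae (Eventually.of_forall fun v => ?_)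
    simp only
    rw [norm_mul, norm_e, one_mul]
  set h1 : W → ℂ := fun ζ => (∫ v : W, e (-(⟪v, N⁻¹ • ζ⟫ : ℝ)) * κ v) * h0 ζ with hh1
  have h1i : Integrable h1 := hbd κ hκc hκi N⁻¹ h0 h0i
  have o1 := opB hκc hκi hκn N⁻¹ h0i hp (g := h1) (fun ζ => rfl)
  set h2 : W → ℂ := fun ζ => (∫ v : W, e (-(⟪v, (1 : ℝ) • ζ⟫ : ℝ)) * γ v) * h1 ζ with hh2
  have o2 := opB hγc hγi hγn 1 h1i hp (g := h2) (fun ζ => rfl)
  rw [ENNReal.ofReal_one, ENNReal.one_rpow, one_mul] at o2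
  have hTM : ∀ z, TM (Mt (Psi τ a b N) t) f z =
      ((N ^ (2 * (a + b)) : ℝ) : ℂ) * ∫ ζ : W, e (⟪z, ζ⟫ : ℝ) * h2 ζ := by
    intro z
    unfold TM
    rw [← integral_const_mul]
    refine integral_congr_ae (Eventually.of_forall fun ζ => ?_)
    simp only [hh2, hh1, hh0]
    rw [← hκF, one_smul, ← hγF]
    unfold Mt
    rw [psi_id hN ζ]
    ring
  calc ∫⁻ z, ‖TM (Mt (Psi τ a b N) t) f z‖ₑ ^ p
      = ENNReal.ofReal (N ^ (2 * (a + b))) ^ p *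
        ∫⁻ z, ‖∫ ζ : W, e (⟪z, ζ⟫ : ℝ) * h2 ζ‖ₑ ^ p := by
        rw [← lintegral_const_mul' _ _ (ENNReal.rpow_ne_top_of_nonneg hp0.le
          ENNReal.ofReal_ne_top)]
        refine lintegral_congr fun z => ?_
        rw [hTM, enorm_mul, ENNReal.mul_rpow_of_nonneg _ _ hp0.le]
        congr 2
        rw [← ofReal_norm, Complex.norm_real, Real.norm_of_nonneg (by positivity)]
    _ ≤ ENNReal.ofReal (N ^ (2 * (a + b))) ^ p * (ENNReal.ofReal K ^ p *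
        ∫⁻ z, ‖∫ ζ : W, e (⟪z, ζ⟫ : ℝ) * h0 ζ‖ₑ ^ p) :=
        mul_le_mul_right (o2.trans o1) _
    _ = _ := by
        have e1 : ENNReal.ofReal ((K * N ^ (2 * (a + b))) ^ p) =
            ENNReal.ofReal (N ^ (2 * (a + b))) ^ p * ENNReal.ofReal K ^ p := by
          rw [← ENNReal.ofReal_rpow_of_nonneg (by positivity) hp0.le,
            ENNReal.ofReal_mul hK.le, ENNReal.mul_rpow_of_nonneg _ _ hp0.le, mul_comm]
        rw [e1, mul_assoc]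
        rfl

end Pool.Agent.Helper66K9.LSH
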