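import Pool.Agent.Helper66K9.LSG.Pc
set_option autoImplicit false

/-! # The kernel far from the cone -/

namespace Pool.Agent.Helper66K9.LSH

open MeasureTheory Set Filter
open scoped ENNReal FourierTransform RealInnerProductSpace Topology ContDiff SchwartzMap
open Pool.Agent.TH280.LS (e norm_e e_add measurable_e continuous_e plancherel e_conj)
open Pool.Agent.Helper66K9.LS

/-- bumps -/
structure Bmp (Ψ : ℝ → ℝ) : Prop where
  smooth : ContDiff ℝ ∞ Ψ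
  supp : ∀ σ, Ψ σ ≠ 0 → 1 / 4 ≤ σ ∧ σ ≤ 2

theorem Bmp.cpt {Ψ : ℝ → ℝ} (h : Bmp Ψ) : HasCompactSupport Ψ := by
  refine HasCompactSupport.intro (isCompact_Icc (a := (1 / 4 : ℝ)) (b := 2)) fun x hx => ?_
  by_contra hc
  exact hx (h.supp x hc)

theorem Bmp.zero {Ψ : ℝ → ℝ} (h : Bmp Ψ) {σ : ℝ} (hσ : σ < 1 / 4 ∨ 2 < σ) : Ψ σ = 0 := by
  by_contra hc
  have := h.supp σ hc
  rcases hσ with hσ | hσ <;> linarith

theorem Bmp.zero_nhds {Ψ : ℝ → ℝ} (h : Bmp Ψ) {σ : ℝ} (hσ : σ < 1 / 4 ∨ 2 < σ) :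
    Ψ =ᶠ[𝓝 σ] fun _ => 0 := by
  rcases hσ with hσ | hσ
  · filter_upwards [Iio_mem_nhds hσ] with s hs
    exact h.zero (Or.inl hs)
  · filter_upwards [Ioi_mem_nhds hσ] with s hs
    exact h.zero (Or.inr hs)

theorem Bmp.deriv {Ψ : ℝ → ℝ} (h : Bmp Ψ) : Bmp (deriv Ψ) := by
  refine ⟨(contDiff_infty_iff_deriv.1 h.smooth).2, fun σ hσ => ?_⟩
  by_contra hc
  apply hσ
  have h1 : σ < 1 / 4 ∨ 2 < σ := by
    by_contra h2
    push Not at h2
    exact hc ⟨h2.1, h2.2⟩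
  have h2 := (h.zero_nhds h1).deriv_eq
  rw [h2]
  simp

theorem Bmp.mul {Ψ : ℝ → ℝ} (h : Bmp Ψ) {a : ℝ → ℝ} (ha : ∀ σ, 0 < σ → ContDiffAt ℝ ∞ a σ) :
    Bmp (fun σ => Ψ σ * a σ) := by
  refine ⟨?_, fun σ hσ => h.supp σ (left_ne_zero_of_mul hσ)⟩
  rw [contDiff_iff_contDiffAt]
  intro σ
  rcases lt_or_ge σ (1 / 4) with h1 | h1
  · have h2 := h.zero_nhds (Or.inl h1)
    have h3 : (fun σ => Ψ σ * a σ) =ᶠ[𝓝 σ] fun _ => 0 := by
      filter_upwards [h2] with s hs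
      rw [hs, zero_mul]
    exact contDiffAt_const.congr_of_eventuallyEq h3
  · exact h.smooth.contDiffAt.mul (ha σ (by linarith))

theorem Bmp.add {Ψ Φ : ℝ → ℝ} (h : Bmp Ψ) (h' : Bmp Φ) : Bmp (fun σ => Ψ σ + Φ σ) := by
  refine ⟨h.smooth.add h'.smooth, fun σ hσ => ?_⟩
  by_cases h1 : Ψ σ = 0
  · rw [h1, zero_add] at hσ
    exact h'.supp σ hσ
  · exact h.supp σ h1

theorem Bmp.sym {Ψ : ℝ → ℝ} (h : Bmp Ψ) : ∃ A : ℝ, Sym 1 A Ψ := by
  obtain ⟨K0, h0⟩ := h.cpt.exists_bound_of_continuous h.smooth.continuous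
  obtain ⟨K1, h1⟩ := h.deriv.cpt.exists_bound_of_continuous h.deriv.smooth.continuous
  obtain ⟨K2, h2⟩ := h.deriv.deriv.cpt.exists_bound_of_continuous h.deriv.deriv.smooth.continuous
  refine ⟨max K0 (max K1 K2), h.smooth, ?_, ?_, ?_, ?_⟩
  · intro σ hσ
    have := h.supp σ hσ
    constructor <;> [linarith [this.1]; linarith [this.2]]
  · intro σ
    exact (h0 σ).trans (le_max_left _ _)
  · intro σ
    rw [one_pow, div_one]
    exact (h1 σ).trans ((le_max_left _ _).trans (le_max_right _ _))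
  · intro σ
    rw [one_pow, div_one]
    exact (h2 σ).trans ((le_max_right _ _).trans (le_max_right _ _))

open LineDeriv

section

variable {W : Type*} [NormedAddCommGroup W] [InnerProductSpace ℝ W] [FiniteDimensional ℝ W]

/-- the operator `-Δ/4π² - T²` -/
noncomputable def DT (T : ℝ) (f : 𝓢(W, ℂ)) : 𝓢(W, ℂ) :=
  (-(1 / (4 * Real.pi ^ 2) : ℂ)) • (∑ i, ∂_{stdOrthonormalBasis ℝ W i}
    (∂_{stdOrthonormalBasis ℝ W i} f)) - ((T : ℂ) ^ 2) • f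

theorem DT_lin (T : ℝ) (f g : 𝓢(W, ℂ)) (c : ℂ) : DT T (f + c • g) = DT T f + c • DT T g := by
  have h1 : ∀ m : W, ∂_{m} (f + c • g) = ∂_{m} f + c • ∂_{m} g := by
    intro m
    rw [lineDerivOp_add, lineDerivOp_smul]
  have h2 : ∀ m : W, ∂_{m} (∂_{m} (f + c • g)) = ∂_{m} (∂_{m} f) + c • ∂_{m} (∂_{m} g) := by
    intro m
    rw [h1, lineDerivOp_add, lineDerivOp_smul]
  unfold DT
  simp only [h2, Finset.sum_add_distrib, ← Finset.smul_sum]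
  module

theorem DT_iter_lin (T : ℝ) (J : ℕ) (f g : 𝓢(W, ℂ)) (c : ℂ) :
    (DT T)^[J] (f + c • g) = (DT T)^[J] f + c • (DT T)^[J] g := by
  induction J with
  | zero => rfl
  | succ J ih =>
      simp only [Function.iterate_succ_apply']
      rw [ih, DT_lin]

variable [MeasurableSpace W] [BorelSpace W]

theorem DT_F (T : ℝ) (f : 𝓢(W, ℂ)) (w : W) : (𝓕 (DT T f) : 𝓢(W, ℂ)) w =
    ((‖w‖ ^ 2 - T ^ 2 : ℝ) : ℂ) * (𝓕 f : 𝓢(W, ℂ)) w := by
  have hpi : (Real.pi : ℂ) ≠ 0 := by exact_mod_cast Real.pi_ne_zero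
  have hsub : ∀ X Y : 𝓢(W, ℂ), (𝓕 (X - Y) : 𝓢(W, ℂ)) = 𝓕 X - 𝓕 Y := fun X Y =>
    map_sub (FourierTransform.fourierCLM ℂ 𝓢(W, ℂ)) X Y
  unfold DT
  rw [hsub, FourierTransform.fourier_smul, FourierTransform.fourier_smul,
    sub_apply, smul_apply, smul_apply, F_lap]
  simp only [smul_eq_mul]
  push_cast
  field_simp

theorem DT_iter_F (T : ℝ) (J : ℕ) (f : 𝓢(W, ℂ)) (w : W) : (𝓕 ((DT T)^[J] f) : 𝓢(W, ℂ)) w =
    ((‖w‖ ^ 2 - T ^ 2 : ℝ) : ℂ) ^ J * (𝓕 f : 𝓢(W, ℂ)) w := by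
  induction J with
  | zero => simp
  | succ J ih => rw [Function.iterate_succ_apply', DT_F, ih, pow_succ]; ring

end

section

variable (W : Type*) [NormedAddCommGroup W] [InnerProductSpace ℝ W] [FiniteDimensional ℝ W]

/-- the symbol as a Schwartz function -/
noncomputable def gB {Ψ : ℝ → ℝ} (h : Bmp Ψ) (T : ℝ) : 𝓢(W, ℂ) :=
  gS le_rfl h.sym.choose_spec T

variable {W}

theorem gB_apply {Ψ : ℝ → ℝ} (h : Bmp Ψ) (T : ℝ) (ζ : W) : gB W h T ζ = Th Ψ T (‖ζ‖ ^ 2) := by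
  unfold gB
  rw [gS_apply, gW_eq]

theorem DT_gB {Ψ : ℝ → ℝ} (h : Bmp Ψ) : ∃ (Ψ1 Ψ2 : ℝ → ℝ) (h1 : Bmp Ψ1) (h2 : Bmp Ψ2),
    ∀ T : ℝ, DT T (gB W h T) = gB W h1 T + (Complex.I * T) • gB W h2 T := by
  set q := Module.finrank ℝ W with hq
  have hsq : ∀ σ : ℝ, 0 < σ → ContDiffAt ℝ ∞ Real.sqrt σ := fun σ hσ =>
    Real.contDiffAt_sqrt hσ.ne'
  set a1 : ℝ → ℝ := fun _ => -(2 * q) / (4 * Real.pi ^ 2) with ha1
  set a2 : ℝ → ℝ := fun σ => -(4 / (4 * Real.pi ^ 2)) * σ with ha2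
  set a3 : ℝ → ℝ := fun σ => -((2 * q - 2) / (4 * Real.pi)) / Real.sqrt σ with ha3
  set a4 : ℝ → ℝ := fun σ => -(8 / (4 * Real.pi)) * Real.sqrt σ with ha4
  have h1 : Bmp (fun σ => deriv Ψ σ * a1 σ + deriv (deriv Ψ) σ * a2 σ) := by
    refine (h.deriv.mul fun σ _ => ?_).add (h.deriv.deriv.mul fun σ _ => ?_)
    · exact contDiffAt_const
    · exact contDiffAt_const.mul contDiffAt_id
  have h2 : Bmp (fun σ => Ψ σ * a3 σ + deriv Ψ σ * a4 σ) := by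
    refine (h.mul fun σ hσ => ?_).add (h.deriv.mul fun σ hσ => ?_)
    · exact contDiffAt_const.div (hsq σ hσ) (Real.sqrt_pos.2 hσ).ne'
    · exact contDiffAt_const.mul (hsq σ hσ)
  refine ⟨_, _, h1, h2, fun T => ?_⟩
  ext ζ
  have e1 : DT T (gB W h T) = hS le_rfl h.sym.choose_spec T := rfl
  rw [e1, hS_apply, add_apply, smul_apply, gB_apply, gB_apply, smul_eq_mul, ← hq]
  rcases (sq_nonneg ‖ζ‖).eq_or_lt with h0 | h0
  · rw [← h0, LL_zero h.sym.choose_spec q T (Or.inl (by norm_num))]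
    have z1 := h1.zero (σ := 0) (Or.inl (by norm_num))
    have z2 := h2.zero (σ := 0) (Or.inl (by norm_num))
    unfold Th
    beta_reduce at z1 z2 ⊢
    rw [z1, z2]
    simp
  · rw [LL_eq q Ψ T h0]
    generalize ‖ζ‖ ^ 2 = σ at h0 ⊢
    have hpi : (Real.pi : ℂ) ≠ 0 := by exact_mod_cast Real.pi_ne_zero
    have hs : Real.sqrt σ ≠ 0 := (Real.sqrt_pos.2 h0).ne'
    have hsc : ((Real.sqrt σ : ℝ) : ℂ) ≠ 0 := by exact_mod_cast hs
    have hσ : (σ : ℂ) = ((Real.sqrt σ : ℝ) : ℂ) ^ 2 := by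
      rw [← Complex.ofReal_pow, Real.sq_sqrt h0.le]
    unfold Th Eh
    simp only [ha1, ha2, ha3, ha4]
    push_cast
    rw [hσ]
    field_simp
    ring

theorem DT_iter_bound (J : ℕ) : ∀ {Ψ : ℝ → ℝ} (h : Bmp Ψ), ∃ C : ℝ, 0 ≤ C ∧ ∀ T : ℝ, 1 ≤ |T| →
    ∀ ζ : W, ‖((DT T)^[J] (gB W h T)) ζ‖ ≤ C * |T| ^ J ∧
      (2 < ‖ζ‖ → ((DT T)^[J] (gB W h T)) ζ = 0) := by
  induction J with
  | zero =>
      intro Ψ h
      obtain ⟨A, hA⟩ := h.sym
      refine ⟨A, hA.nonneg, fun T _ ζ => ?_⟩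
      rw [Function.iterate_zero, id, gB_apply]
      constructor
      · unfold Th
        rw [norm_mul, norm_e, one_mul, Complex.norm_real, pow_zero, mul_one]
        exact hA.b0 _
      · intro hζ
        unfold Th
        rw [h.zero (Or.inr (by nlinarith))]
        simp
  | succ J ih =>
      intro Ψ h
      obtain ⟨Ψ1, Ψ2, h1, h2, hD⟩ := DT_gB (W := W) h
      obtain ⟨C1, hC1, hb1⟩ := ih h1
      obtain ⟨C2, hC2, hb2⟩ := ih h2
      refine ⟨C1 + C2, by positivity, fun T hT ζ => ?_⟩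
      rw [Function.iterate_succ_apply, hD, DT_iter_lin, add_apply, smul_apply, smul_eq_mul]
      obtain ⟨b1, z1⟩ := hb1 T hT ζ
      obtain ⟨b2, z2⟩ := hb2 T hT ζ
      constructor
      · calc ‖((DT T)^[J] (gB W h1 T)) ζ + Complex.I * T * ((DT T)^[J] (gB W h2 T)) ζ‖
            ≤ ‖((DT T)^[J] (gB W h1 T)) ζ‖ + ‖Complex.I * T * ((DT T)^[J] (gB W h2 T)) ζ‖ :=
              norm_add_le _ _
          _ = ‖((DT T)^[J] (gB W h1 T)) ζ‖ + |T| * ‖((DT T)^[J] (gB W h2 T)) ζ‖ := by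
              rw [norm_mul, norm_mul, Complex.norm_I, one_mul, Complex.norm_real,
                Real.norm_eq_abs]
          _ ≤ C1 * |T| ^ J + |T| * (C2 * |T| ^ J) := by gcongr
          _ ≤ C1 * (|T| ^ J * |T|) + |T| * (C2 * |T| ^ J) := by
              gcongr
              exact le_mul_of_one_le_right (by positivity) hT
          _ = _ := by rw [pow_succ]; ring
      · intro hζ
        rw [z1 hζ, z2 hζ]
        simp

end

end Pool.Agent.Helper66K9.LSH
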