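import Pool.Agent.Helper66K9.LSH.Tail
set_option autoImplicit false

/-! # The kernel far from the cone: the integral -/

namespace Pool.Agent.Helper66K9.LSH

open MeasureTheory Set Filter
open scoped ENNReal FourierTransform RealInnerProductSpace Topology ContDiff SchwartzMap
open Pool.Agent.TH280.LS (e norm_e e_add measurable_e continuous_e plancherel e_conj)
open Pool.Agent.Helper66K9.LS

variable (W : Type*) [NormedAddCommGroup W] [InnerProductSpace ℝ W] [FiniteDimensional ℝ W]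
  [MeasurableSpace W] [BorelSpace W]

theorem Kt_gB {Ψ : ℝ → ℝ} (h : Bmp Ψ) (T : ℝ) (z : W) :
    Kt W Ψ T z = (𝓕 (gB W h T) : 𝓢(W, ℂ)) (-z) := Kt_eq le_rfl h.sym.choose_spec T z

theorem tail_one {Ψ : ℝ → ℝ} (h : Bmp Ψ) : ∃ C : ℝ, 0 < C ∧ ∀ N T : ℝ, 1 ≤ N → N ≤ |T| →
    |T| ≤ 2 * N → ∫⁻ z in {z : W | 4 * N ≤ ‖z‖}, ‖Kt W Ψ T z‖ₑ ≤ ENNReal.ofReal C := by
  set d := Module.finrank ℝ W with hd
  set J : ℕ := d + 1 with hJ
  obtain ⟨C, hC, hb⟩ := DT_iter_bound (W := W) J h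
  set V : ℝ := volume.real (Metric.closedBall (0 : W) 2) with hV
  have hV0 : 0 ≤ V := measureReal_nonneg
  have hI0 : Integrable (fun z : W => (1 + ‖z‖) ^ (-(J : ℝ))) := by
    refine integrable_one_add_norm ?_
    rw [hJ, ← hd]
    push_cast
    linarith
  set I : ℝ := ∫ z : W, (1 + ‖z‖) ^ (-(J : ℝ)) with hI
  have hI1 : 0 ≤ I := integral_nonneg fun z => by positivity
  refine ⟨(C ^ 2 * V * (8 ^ J * I)) ^ (1 / 2 : ℝ) + 1, by positivity, ?_⟩
  intro N T hN hT1 hT2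
  have hN0 : 0 < N := by linarith
  have hT0 : 1 ≤ |T| := hN.trans hT1
  set G : 𝓢(W, ℂ) := (DT T)^[J] (gB W h T) with hG
  set F : 𝓢(W, ℂ) := 𝓕 G with hF
  have hFK : ∀ z : W, ‖F (-z)‖ = |‖z‖ ^ 2 - T ^ 2| ^ J * ‖Kt W Ψ T z‖ := by
    intro z
    rw [hF, hG, DT_iter_F, norm_mul, norm_pow, Complex.norm_real, Real.norm_eq_abs, norm_neg,
      Kt_gB W h]
  have hpos : ∀ z : W, 4 * N ≤ ‖z‖ → 0 < ‖z‖ ^ 2 - T ^ 2 := by
    intro z hz
    rw [← sq_abs T]
    nlinarith [abs_nonneg T]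
  have hset : MeasurableSet {z : W | 4 * N ≤ ‖z‖} :=
    measurableSet_le measurable_const measurable_norm
  -- the first factor
  have hA : ∫⁻ z : W, ‖F (-z)‖ₑ ^ (2 : ℝ) ≤ ENNReal.ofReal (C ^ 2 * |T| ^ (2 * J) * V) := by
    have i1 : Integrable (fun z : W => ‖F z‖ ^ 2) :=
      (F.memLp 2).integrable_norm_pow (by norm_num)
    have e1 : ∫⁻ z : W, ‖F (-z)‖ₑ ^ (2 : ℝ) = ENNReal.ofReal (∫ z : W, ‖F z‖ ^ 2) := by
      have h3 := (Measure.measurePreserving_neg (volume : Measure W)).lintegral_comp_emb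
        (MeasurableEquiv.neg W).measurableEmbedding (fun z => ‖F z‖ₑ ^ (2 : ℝ))
      rw [h3, ofReal_integral_eq_lintegral_ofReal i1 (Eventually.of_forall fun z => sq_nonneg _)]
      refine lintegral_congr fun z => ?_
      rw [ENNReal.ofReal_pow (norm_nonneg _), ofReal_norm, ENNReal.rpow_two]
    rw [e1]
    apply ENNReal.ofReal_le_ofReal
    rw [hF, SchwartzMap.integral_norm_sq_fourier]
    calc ∫ z : W, ‖G z‖ ^ 2 ≤ ∫ z : W, (Metric.closedBall (0 : W) 2).indicator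
          (fun _ => (C * |T| ^ J) ^ 2) z := by
          refine integral_mono_of_nonneg (Eventually.of_forall fun z => sq_nonneg _) ?_ ?_
          · rw [integrable_indicator_iff Metric.isClosed_closedBall.measurableSet]
            exact integrableOn_const (measure_closedBall_lt_top).ne
          · refine Eventually.of_forall fun z => ?_
            simp only
            by_cases hx : z ∈ Metric.closedBall (0 : W) 2
            · rw [indicator_of_mem hx]
              have := (hb T hT0 z).1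
              gcongr
            · rw [indicator_of_notMem hx, hG, (hb T hT0 z).2 (by simpa using hx)]
              simp
      _ = C ^ 2 * |T| ^ (2 * J) * V := by
          rw [integral_indicator_const _ Metric.isClosed_closedBall.measurableSet, smul_eq_mul,
            ← hV, mul_pow, ← pow_mul, mul_comm J 2]
          ring
  -- the second factor
  have hB : ∫⁻ z in {z : W | 4 * N ≤ ‖z‖}, (ENNReal.ofReal (|‖z‖ ^ 2 - T ^ 2| ^ J))⁻¹ ^ (2 : ℝ) ≤
      ENNReal.ofReal (8 ^ J * I / (4 * N) ^ (3 * J)) := by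
    have e1 : ENNReal.ofReal (8 ^ J * I / (4 * N) ^ (3 * J)) =
        ∫⁻ z : W, ENNReal.ofReal (8 ^ J / (4 * N) ^ (3 * J) * (1 + ‖z‖) ^ (-(J : ℝ))) := by
      rw [← ofReal_integral_eq_lintegral_ofReal (hI0.const_mul _)
        (Eventually.of_forall fun z => by positivity), integral_const_mul, ← hI]
      congr 1
      ring
    rw [e1, ← lintegral_indicator hset]
    refine lintegral_mono fun z => ?_
    by_cases hz : z ∈ {z : W | 4 * N ≤ ‖z‖}
    · rw [indicator_of_mem hz]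
      have hz1 : 4 * N ≤ ‖z‖ := hz
      have hp := hpos z hz1
      have hz0 : 0 < ‖z‖ := by linarith
      rw [abs_of_pos hp, ← ENNReal.ofReal_inv_of_pos (by positivity), ENNReal.rpow_two,
        ← ENNReal.ofReal_pow (by positivity)]
      apply ENNReal.ofReal_le_ofReal
      rw [Real.rpow_neg (by positivity), Real.rpow_natCast, ← div_eq_mul_inv, div_div,
        inv_pow, ← one_div, div_le_div_iff₀ (by positivity) (by positivity), one_mul,
        ← pow_mul]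
      have h1 : ‖z‖ ^ 2 / 2 ≤ ‖z‖ ^ 2 - T ^ 2 := by
        rw [← sq_abs T]
        nlinarith [abs_nonneg T]
      have h2 : 1 + ‖z‖ ≤ 2 * ‖z‖ := by linarith
      calc (4 * N) ^ (3 * J) * (1 + ‖z‖) ^ J ≤ ‖z‖ ^ (3 * J) * (2 * ‖z‖) ^ J := by gcongr
        _ = 8 ^ J * (‖z‖ ^ 2 / 2) ^ (J * 2) := by
            rw [div_pow, ← pow_mul, mul_pow, pow_mul (2 : ℝ) J 2]
            have h3 : (8 : ℝ) ^ J = 2 ^ J * ((2 : ℝ) ^ J) ^ 2 := by
              rw [← pow_mul, ← pow_add, show (8 : ℝ) = 2 ^ 3 by norm_num, ← pow_mul]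
              congr 1
              ring
            rw [h3]
            field_simp
            rw [← pow_add]
            congr 1
            ring
        _ ≤ _ := by gcongr
    · rw [indicator_of_notMem hz]
      exact zero_le
  -- Cauchy–Schwarz
  have hFm : Measurable (fun z : W => ‖F (-z)‖ₑ) :=
    (F.continuous.comp continuous_neg).measurable.enorm
  have hwm : Measurable (fun z : W => (ENNReal.ofReal (|‖z‖ ^ 2 - T ^ 2| ^ J))⁻¹) := by
    fun_prop
  have hcs : ∫⁻ z in {z : W | 4 * N ≤ ‖z‖}, ‖Kt W Ψ T z‖ₑ =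
      ∫⁻ z in {z : W | 4 * N ≤ ‖z‖},
        ((fun z : W => ‖F (-z)‖ₑ) * fun z : W => (ENNReal.ofReal (|‖z‖ ^ 2 - T ^ 2| ^ J))⁻¹) z := by
    refine setLIntegral_congr_fun hset fun z hz => ?_
    have hp := hpos z hz
    simp only [Pi.mul_apply]
    rw [← ofReal_norm (F (-z)), hFK, ENNReal.ofReal_mul (by positivity), mul_comm, ← mul_assoc,
      ENNReal.inv_mul_cancel, one_mul, ofReal_norm]
    · rw [Ne, ENNReal.ofReal_eq_zero, not_le, abs_of_pos hp]
      positivity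
    · exact ENNReal.ofReal_ne_top
  rw [hcs]
  refine (ENNReal.lintegral_mul_le_Lp_mul_Lq (volume.restrict {z : W | 4 * N ≤ ‖z‖})
      Real.HolderConjugate.two_two hFm.aemeasurable hwm.aemeasurable).trans ?_
  have hA' := (setLIntegral_le_lintegral {z : W | 4 * N ≤ ‖z‖}
    (fun z : W => ‖F (-z)‖ₑ ^ (2 : ℝ))).trans hA
  calc (∫⁻ z in {z : W | 4 * N ≤ ‖z‖}, ‖F (-z)‖ₑ ^ (2 : ℝ)) ^ (1 / 2 : ℝ) *
      (∫⁻ z in {z : W | 4 * N ≤ ‖z‖},
        (ENNReal.ofReal (|‖z‖ ^ 2 - T ^ 2| ^ J))⁻¹ ^ (2 : ℝ)) ^ (1 / 2 : ℝ)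
      ≤ ENNReal.ofReal (C ^ 2 * |T| ^ (2 * J) * V) ^ (1 / 2 : ℝ) *
        ENNReal.ofReal (8 ^ J * I / (4 * N) ^ (3 * J)) ^ (1 / 2 : ℝ) := by gcongr
    _ = ENNReal.ofReal ((C ^ 2 * |T| ^ (2 * J) * V) * (8 ^ J * I / (4 * N) ^ (3 * J))) ^
        (1 / 2 : ℝ) := by
        rw [← ENNReal.mul_rpow_of_nonneg _ _ (by norm_num), ← ENNReal.ofReal_mul (by positivity)]
    _ ≤ ENNReal.ofReal (C ^ 2 * V * (8 ^ J * I)) ^ (1 / 2 : ℝ) := by
        refine ENNReal.rpow_le_rpow (ENNReal.ofReal_le_ofReal ?_) (by norm_num)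
        have h1 : |T| ^ (2 * J) ≤ (4 * N) ^ (3 * J) := by
          calc |T| ^ (2 * J) ≤ (4 * N) ^ (2 * J) := by
                have : |T| ≤ 4 * N := by linarith
                gcongr
            _ ≤ _ := pow_le_pow_right₀ (by linarith) (by omega)
        have h2 : |T| ^ (2 * J) / (4 * N) ^ (3 * J) ≤ 1 := by
          rw [div_le_one (by positivity)]
          exact h1
        calc C ^ 2 * |T| ^ (2 * J) * V * (8 ^ J * I / (4 * N) ^ (3 * J))
            = C ^ 2 * V * (8 ^ J * I) * (|T| ^ (2 * J) / (4 * N) ^ (3 * J)) := by ring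
          _ ≤ C ^ 2 * V * (8 ^ J * I) * 1 := by gcongr
          _ = _ := mul_one _
    _ = ENNReal.ofReal ((C ^ 2 * V * (8 ^ J * I)) ^ (1 / 2 : ℝ)) :=
        ENNReal.ofReal_rpow_of_nonneg (by positivity) (by norm_num)
    _ ≤ _ := ENNReal.ofReal_le_ofReal (by linarith)

theorem lint_smul {N : ℝ} (hN : 0 < N) {φ : W → ℝ≥0∞} (hφ : Measurable φ) :
    ∫⁻ z : W, φ (N • z) = ENNReal.ofReal ((N ^ Module.finrank ℝ W)⁻¹) * ∫⁻ z, φ z := by
  have h1 := Measure.map_addHaar_smul (volume : Measure W) hN.ne'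
  have hm : Measurable (fun z : W => N • z) := by fun_prop
  have h2 : ∫⁻ z : W, φ (N • z) = ∫⁻ z, φ z ∂(Measure.map (fun z : W => N • z) volume) := by
    rw [lintegral_map hφ hm]
  rw [h2]
  have h3 : Measure.map (fun z : W => N • z) volume =
      ENNReal.ofReal |(N ^ Module.finrank ℝ W)⁻¹| • (volume : Measure W) := h1
  rw [h3, lintegral_smul_measure, smul_eq_mul, abs_of_pos (by positivity)]

theorem Kt_scale {Ψ : ℝ → ℝ} (t : ℝ) {N : ℝ} (hN : 0 < N) (z : W) :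
    Kt W (fun σ => Ψ (σ / N ^ 2)) t z =
      ((N ^ Module.finrank ℝ W : ℝ) : ℂ) * Kt W Ψ (t * N) (N • z) := by
  unfold Kt
  have h1 := Measure.integral_comp_smul (volume : Measure W)
    (fun ζ : W => e (⟪z, ζ⟫ : ℝ) * Mt (fun σ => Ψ (σ / N ^ 2)) t ‖ζ‖) N
  have h2 : ∀ ζ : W, e (⟪z, N • ζ⟫ : ℝ) * Mt (fun σ => Ψ (σ / N ^ 2)) t ‖N • ζ‖ =
      e (⟪N • z, ζ⟫ : ℝ) * Mt Ψ (t * N) ‖ζ‖ := by
    intro ζ
    rw [real_inner_smul_left, real_inner_smul_right, norm_smul, Real.norm_of_nonneg hN.le]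
    unfold Mt
    have h3 : (N * ‖ζ‖) ^ 2 / N ^ 2 = ‖ζ‖ ^ 2 := by field_simp
    beta_reduce
    rw [h3, mul_assoc t N]
  simp only [h2] at h1
  rw [h1, Complex.real_smul, abs_of_pos (by positivity)]
  have h3 : ((N ^ Module.finrank ℝ W : ℝ) : ℂ) ≠ 0 := by
    exact_mod_cast (by positivity : (N ^ Module.finrank ℝ W : ℝ) ≠ 0)
  rw [← mul_assoc, Complex.ofReal_inv, mul_inv_cancel₀ h3, one_mul]

/-- the tail of the kernels -/
theorem tail_N {Ψ : ℝ → ℝ} (h : Bmp Ψ) : ∃ C : ℝ, 0 < C ∧ ∀ N t : ℝ, 1 ≤ N → 1 ≤ |t| →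
    |t| ≤ 2 → ∫⁻ z in {z : W | 4 ≤ ‖z‖}, ‖Kt W (fun σ => Ψ (σ / N ^ 2)) t z‖ₑ ≤
      ENNReal.ofReal C := by
  obtain ⟨C, hC, hb⟩ := tail_one W h
  refine ⟨C, hC, ?_⟩
  intro N t hN ht1 ht2
  have hN0 : 0 < N := by linarith
  set K : W → ℂ := Kt W Ψ (t * N) with hK
  have hKm : Measurable K := by
    have : K = fun z => (𝓕 (gB W h (t * N)) : 𝓢(W, ℂ)) (-z) := funext fun z => Kt_gB W h _ z
    rw [this]
    exact ((SchwartzMap.continuous _).comp continuous_neg).measurable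
  set S : Set W := {z : W | 4 * N ≤ ‖z‖} with hS
  have hSm : MeasurableSet S := measurableSet_le measurable_const measurable_norm
  set φ : W → ℝ≥0∞ := S.indicator fun z => ‖K z‖ₑ with hφ
  have hφm : Measurable φ := hKm.enorm.indicator hSm
  have h1 : ∫⁻ z in {z : W | 4 ≤ ‖z‖}, ‖Kt W (fun σ => Ψ (σ / N ^ 2)) t z‖ₑ =
      ENNReal.ofReal (N ^ Module.finrank ℝ W) * ∫⁻ z : W, φ (N • z) := by
    rw [← lintegral_const_mul' _ _ ENNReal.ofReal_ne_top,
      ← lintegral_indicator (measurableSet_le measurable_const measurable_norm)]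
    refine lintegral_congr fun z => ?_
    have hiff : z ∈ {z : W | 4 ≤ ‖z‖} ↔ N • z ∈ S := by
      simp only [hS, mem_ofPred_eq]
      rw [norm_smul, Real.norm_of_nonneg hN0.le]
      constructor
      · intro h; nlinarith
      · intro h; nlinarith
    by_cases hz : z ∈ {z : W | 4 ≤ ‖z‖}
    · rw [indicator_of_mem hz, hφ, indicator_of_mem (hiff.1 hz), Kt_scale W t hN0, enorm_mul,
        ← ofReal_norm ((N ^ Module.finrank ℝ W : ℝ) : ℂ), Complex.norm_real,
        Real.norm_of_nonneg (by positivity)]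
    · rw [indicator_of_notMem hz, hφ, indicator_of_notMem (fun h => hz (hiff.2 h)), mul_zero]
  rw [h1, lint_smul W hN0 hφm, ← mul_assoc, ← ENNReal.ofReal_mul (by positivity),
    mul_inv_cancel₀ (by positivity), ENNReal.ofReal_one, one_mul, hφ, lintegral_indicator hSm]
  refine hb N (t * N) hN ?_ ?_
  · rw [abs_mul, abs_of_pos hN0]
    nlinarith
  · rw [abs_mul, abs_of_pos hN0]
    nlinarith

end Pool.Agent.Helper66K9.LSH
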