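import Pool.Agent.Helper66K9.LSH.Tail2
set_option autoImplicit false

/-! # Convolutions and multipliers with integrable kernels -/

namespace Pool.Agent.Helper66K9.LSH

open MeasureTheory Set Filter
open scoped ENNReal FourierTransform RealInnerProductSpace Topology
open Pool.Agent.TH280.LS (e norm_e e_add measurable_e continuous_e plancherel e_conj)
open Pool.Agent.Helper66K9.LS

variable {W : Type*} [NormedAddCommGroup W] [InnerProductSpace ℝ W] [FiniteDimensional ℝ W]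
  [MeasurableSpace W] [BorelSpace W]

/-- Young's inequality -/
theorem young_p {κ g : W → ℝ≥0∞} (hκ : Measurable κ) (hg : Measurable g) {p : ℝ} (hp : 1 < p)
    (lam : ℝ) {a : ℝ≥0∞} (ha : ∫⁻ v, κ v ≤ a) (haf : a ≠ ∞) :
    ∫⁻ z, (∫⁻ v, κ v * g (z - lam • v)) ^ p ≤ a ^ p * ∫⁻ z, g z ^ p := by
  have hp0 : 0 < p := by linarith
  have hκf : ∫⁻ v, κ v ≠ ∞ := (ha.trans_lt (lt_top_iff_ne_top.2 haf)).ne
  set μK : Measure W := volume.withDensity κ with hμK
  have hμa : μK univ = ∫⁻ v, κ v := by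
    rw [hμK, withDensity_apply _ MeasurableSet.univ, Measure.restrict_univ]
  have hfin : IsFiniteMeasure μK := ⟨by rw [hμa]; exact lt_top_iff_ne_top.2 hκf⟩
  have h1 : ∀ z, (∫⁻ v, κ v * g (z - lam • v)) ^ p ≤
      (∫⁻ v, κ v) ^ (p - 1) * ∫⁻ v, g (z - lam • v) ^ p ∂μK := by
    intro z
    have hm : Measurable (fun v : W => g (z - lam • v)) := hg.comp (by fun_prop)
    have h2 : ∫⁻ v, κ v * g (z - lam • v) = ∫⁻ v, g (z - lam • v) ∂μK := by
      rw [hμK, lintegral_withDensity_eq_lintegral_mul _ hκ hm]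
      rfl
    rw [h2, ← hμa]
    exact jensen μK hm.aemeasurable hp
  have hjm : Measurable (fun q : W × W => g (q.1 - lam • q.2) ^ p) :=
    (hg.comp (by fun_prop)).pow_const p
  have hap : (∫⁻ v, κ v) ^ (p - 1) ≠ ∞ := ENNReal.rpow_ne_top_of_nonneg (by linarith) hκf
  calc ∫⁻ z, (∫⁻ v, κ v * g (z - lam • v)) ^ p
      ≤ ∫⁻ z, (∫⁻ v, κ v) ^ (p - 1) * ∫⁻ v, g (z - lam • v) ^ p ∂μK := lintegral_mono h1
    _ = (∫⁻ v, κ v) ^ (p - 1) * ∫⁻ v, ∫⁻ z, g (z - lam • v) ^ p ∂volume ∂μK := by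
        rw [lintegral_const_mul' _ _ hap, lintegral_lintegral_swap hjm.aemeasurable]
    _ = (∫⁻ v, κ v) ^ (p - 1) * ∫⁻ _v, (∫⁻ z, g z ^ p) ∂μK := by
        congr 1
        refine lintegral_congr fun v => ?_
        exact lintegral_sub_right_eq_self (fun z => g z ^ p) (lam • v)
    _ = (∫⁻ v, κ v) ^ p * ∫⁻ z, g z ^ p := by
        rw [lintegral_const, hμa]
        rw [show p = (p - 1) + 1 by ring, ENNReal.rpow_add_of_nonneg _ _ (by linarith)
          zero_le_one, ENNReal.rpow_one]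
        ring_nf
    _ ≤ _ := mul_le_mul_left (ENNReal.rpow_le_rpow ha hp0.le) _

end Pool.Agent.Helper66K9.LSH
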